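import Mathlib

/-!
Riemannian metrics on the unit sphere of `ℝ³`, lengths, distance, segments.
-/

set_option autoImplicit false

namespace Pool.Agent.Lib.MP_da270e_gt

open Set
open scoped ContDiff

/-- Euclidean 3-space; the surface is its unit sphere `‖p‖ = 1`, whose tangent plane at `p` is
`{v | ⟪p, v⟫ = 0}`. -/
abbrev E : Type := EuclideanSpace ℝ (Fin 3)

/-- A smooth Riemannian metric on the unit sphere: a smooth field of symmetric bilinear forms
on `ℝ³` that is positive definite on the tangent planes of the sphere. -/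
def IsMetric (g : E → E →L[ℝ] E →L[ℝ] ℝ) : Prop :=
  ContDiff ℝ ∞ g ∧ (∀ p v w, g p v w = g p w v) ∧
    ∀ p v : E, ‖p‖ = 1 → inner ℝ p v = 0 → v ≠ 0 → 0 < g p v v

/-- `c` is a `C¹` path on the sphere (for times in `[0, 1]`) from `a` to `b`. -/
def IsPath (c : ℝ → E) (a b : E) : Prop :=
  ContDiff ℝ 1 c ∧ (∀ t ∈ Icc (0 : ℝ) 1, ‖c t‖ = 1) ∧ c 0 = a ∧ c 1 = b

/-- The length of the path `c` for the metric `g`. -/
noncomputable def len (g : E → E →L[ℝ] E →L[ℝ] ℝ) (c : ℝ → E) : ℝ :=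
  ∫ t in (0 : ℝ)..1, √(g (c t) (deriv c t) (deriv c t))

/-- The intrinsic distance: infimum of the lengths of paths from `a` to `b`. -/
noncomputable def rho (g : E → E →L[ℝ] E →L[ℝ] ℝ) (a b : E) : ℝ :=
  sInf {L | ∃ c, IsPath c a b ∧ len g c = L}

/-- A segment from `a` to `b`: a regularly parametrised path of length `rho g a b`. -/
def IsSegment (g : E → E →L[ℝ] E →L[ℝ] ℝ) (c : ℝ → E) (a b : E) : Prop :=
  IsPath c a b ∧ (∀ t ∈ Icc (0 : ℝ) 1, deriv c t ≠ 0) ∧ len g c = rho g a b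

/-- There are points `x ≠ y` and two segments from `y` to `x` whose tangent directions at `y`
are opposite. -/
def HasOppositeSegments (g : E → E →L[ℝ] E →L[ℝ] ℝ) : Prop :=
  ∃ (x y : E) (c₁ c₂ : ℝ → E), x ≠ y ∧ IsSegment g c₁ y x ∧ IsSegment g c₂ y x ∧
    ∃ a : ℝ, 0 < a ∧ deriv c₂ 0 = -(a • deriv c₁ 0)

/-- The covariant derivative `(∇_u g)(v, w)` at `p` of the tensor field `g` on the sphere, for the
Levi-Civita connection of the round metric (`u, v, w` tangent at `p`). -/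
noncomputable def cov (g : E → E →L[ℝ] E →L[ℝ] ℝ) (p u v w : E) : ℝ :=
  fderiv ℝ g p u v w - inner ℝ u v * g p p w - inner ℝ u w * g p v p

/-- `g` and `g'` are `δ`-close in the `C¹` norm of tensor fields on the sphere. -/
def C1Close (δ : ℝ) (g g' : E → E →L[ℝ] E →L[ℝ] ℝ) : Prop :=
  ∀ p u v w : E, ‖p‖ = 1 → inner ℝ p u = 0 → inner ℝ p v = 0 → inner ℝ p w = 0 →
    |g p v w - g' p v w| ≤ δ * ‖v‖ * ‖w‖ ∧
      |cov g p u v w - cov g' p u v w| ≤ δ * ‖u‖ * ‖v‖ * ‖w‖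

end Pool.Agent.Lib.MP_da270e_gt
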