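import Mathlib
import Pool.Agent.Lib.MP_da270e_gt.Defs

-- part Pool.Agent.Lib.MP_da270e_gt.ODE
section

/-!
Curves on the sphere that almost solve the great circle equation.
-/

set_option autoImplicit false

namespace Pool.Agent.Lib.MP_da270e_gt

open Set Real

/-- The perturbation function. -/
def hfun (p : E) : ℝ := p 0 ^ 3 + p 2 ^ 5

theorem abs_coord_le (p : E) (i : Fin 3) : |p i| ≤ ‖p‖ := by
  simpa using EuclideanSpace.norm_eq p ▸ PiLp.norm_apply_le p i

theorem hfun_neg (p : E) : hfun (-p) = -hfun p := by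
  simp only [hfun, PiLp.neg_apply]; ring

theorem continuous_hfun : Continuous hfun := by
  unfold hfun; fun_prop

theorem abs_hfun_le {p : E} (hp : ‖p‖ ≤ 1) : |hfun p| ≤ 2 := by
  have h0 := (abs_coord_le p 0).trans hp
  have h2 := (abs_coord_le p 2).trans hp
  have a0 : |p 0 ^ 3| ≤ 1 := by rw [abs_pow]; exact pow_le_one₀ (abs_nonneg _) h0
  have a2 : |p 2 ^ 5| ≤ 1 := by rw [abs_pow]; exact pow_le_one₀ (abs_nonneg _) h2
  calc |hfun p| ≤ |p 0 ^ 3| + |p 2 ^ 5| := abs_add_le _ _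
    _ ≤ 2 := by linarith

theorem abs_pow_sub_le {a b : ℝ} (ha : |a| ≤ 1) (hb : |b| ≤ 1) (n : ℕ) :
    |a ^ n - b ^ n| ≤ n * |a - b| := by
  induction n with
  | zero => simp
  | succ n ih =>
    have e : a ^ (n + 1) - b ^ (n + 1) = a * (a ^ n - b ^ n) + b ^ n * (a - b) := by ring
    have hbn : |b ^ n| ≤ 1 := by rw [abs_pow]; exact pow_le_one₀ (abs_nonneg _) hb
    rw [e]
    calc |a * (a ^ n - b ^ n) + b ^ n * (a - b)|
        ≤ |a| * |a ^ n - b ^ n| + |b ^ n| * |a - b| := by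
          rw [← abs_mul, ← abs_mul]; exact abs_add_le _ _
      _ ≤ 1 * (n * |a - b|) + 1 * |a - b| := by gcongr
      _ = ((n + 1 : ℕ) : ℝ) * |a - b| := by push_cast; ring

theorem hfun_lip {p q : E} (hp : ‖p‖ ≤ 1) (hq : ‖q‖ ≤ 1) : |hfun p - hfun q| ≤ 8 * ‖p - q‖ := by
  have h0 := abs_pow_sub_le ((abs_coord_le p 0).trans hp) ((abs_coord_le q 0).trans hq) 3
  have h2 := abs_pow_sub_le ((abs_coord_le p 2).trans hp) ((abs_coord_le q 2).trans hq) 5
  have e0 : |p 0 - q 0| ≤ ‖p - q‖ := by simpa using abs_coord_le (p - q) 0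
  have e2 : |p 2 - q 2| ≤ ‖p - q‖ := by simpa using abs_coord_le (p - q) 2
  have e : hfun p - hfun q = (p 0 ^ 3 - q 0 ^ 3) + (p 2 ^ 5 - q 2 ^ 5) := by
    simp only [hfun]; ring
  rw [e]
  have := abs_add_le (p 0 ^ 3 - q 0 ^ 3) (p 2 ^ 5 - q 2 ^ 5)
  push_cast at h0 h2
  linarith

/-- Point of the great circle through `a` in the direction `b`. -/
noncomputable def arc (a b : E) (θ : ℝ) : E := cos θ • a + sin θ • b

theorem norm_comb {a b : E} (ha : ‖a‖ = 1) (hb : ‖b‖ = 1) (hab : inner ℝ a b = 0) (s t : ℝ) :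
    ‖s • a + t • b‖ ^ 2 = s ^ 2 + t ^ 2 := by
  rw [norm_add_sq_real, norm_smul, norm_smul, inner_smul_left, inner_smul_right, ha, hb, hab]
  simp [sq_abs]

theorem norm_comb_one {a b : E} (ha : ‖a‖ = 1) (hb : ‖b‖ = 1) (hab : inner ℝ a b = 0) {s t : ℝ}
    (h : s ^ 2 + t ^ 2 = 1) : ‖s • a + t • b‖ = 1 := by
  have := norm_comb ha hb hab s t
  rw [h] at this
  exact (pow_eq_one_iff_of_nonneg (norm_nonneg _) two_ne_zero).1 this

theorem norm_arc {a b : E} (ha : ‖a‖ = 1) (hb : ‖b‖ = 1) (hab : inner ℝ a b = 0) (θ : ℝ) :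
    ‖arc a b θ‖ = 1 :=
  norm_comb_one ha hb hab (cos_sq_add_sin_sq θ)

theorem continuous_arc (a b : E) : Continuous (arc a b) := by
  unfold arc; fun_prop

theorem norm_two_le (s t : ℝ) (hs : |s| ≤ 1) (ht : |t| ≤ 1) (X Y : E) :
    ‖s • X + t • Y‖ ≤ ‖X‖ + ‖Y‖ := by
  refine (norm_add_le _ _).trans ?_
  rw [norm_smul, norm_smul, Real.norm_eq_abs, Real.norm_eq_abs]
  have := norm_nonneg X
  have := norm_nonneg Y
  nlinarith

/-- A curve on the sphere which solves the great circle equation up to an error `κ`. -/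
structure NearGeo (κ : ℝ) (c d P F : ℝ → E) : Prop where
  hc : ∀ t, HasDerivAt c (d t) t
  hd : Continuous d
  unit : ∀ t ∈ Icc (0 : ℝ) 1, ‖c t‖ = 1
  tang : ∀ t ∈ Icc (0 : ℝ) 1, inner ℝ (c t) (d t) = 0
  ne : ∀ t ∈ Icc (0 : ℝ) 1, d t ≠ 0
  hP : ∀ t ∈ Icc (0 : ℝ) 1, HasDerivAt P (F t) t
  mom : ∀ t ∈ Icc (0 : ℝ) 1, ‖d t - ‖d t‖ • P t‖ ≤ κ * ‖d t‖
  frc : ∀ t ∈ Icc (0 : ℝ) 1, ‖F t + ‖d t‖ • c t‖ ≤ κ * ‖d t‖

/-- Round arc length. -/
noncomputable def arcLen (d : ℝ → E) (t : ℝ) : ℝ := ∫ r in (0 : ℝ)..t, ‖d r‖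

theorem hasDerivAt_arcLen {d : ℝ → E} (hd : Continuous d) (t : ℝ) :
    HasDerivAt (arcLen d) ‖d t‖ t :=
  (hd.norm.integral_hasStrictDerivAt 0 t).hasDerivAt

theorem arcLen_zero (d : ℝ → E) : arcLen d 0 = 0 := by simp [arcLen]

theorem arcLen_mono {d : ℝ → E} (hd : Continuous d) : Monotone (arcLen d) :=
  monotone_of_deriv_nonneg (fun t => (hasDerivAt_arcLen hd t).differentiableAt)
    fun t => by rw [(hasDerivAt_arcLen hd t).deriv]; exact norm_nonneg _

theorem fence {f f' : ℝ → ℝ} {d : ℝ → E} (hd : Continuous d) (K : ℝ)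
    (hf : ∀ t ∈ Icc (0 : ℝ) 1, HasDerivAt f (f' t) t) (h0 : f 0 ≤ 0)
    (hb : ∀ t ∈ Icc (0 : ℝ) 1, f' t ≤ K * ‖d t‖) : ∀ t ∈ Icc (0 : ℝ) 1, f t ≤ K * arcLen d t := by
  intro t ht
  refine image_le_of_deriv_right_le_deriv_boundary (f := f) (f' := f') (a := 0) (b := 1)
    (B := fun t => K * arcLen d t) (B' := fun t => K * ‖d t‖)
    (fun x hx => (hf x hx).continuousAt.continuousWithinAt)
    (fun x hx => (hf x (Ico_subset_Icc_self hx)).hasDerivWithinAt) ?_
    (fun x _ => ((hasDerivAt_arcLen hd x).const_mul K).continuousAt.continuousWithinAt)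
    (fun x _ => ((hasDerivAt_arcLen hd x).const_mul K).hasDerivWithinAt)
    (fun x hx => hb x (Ico_subset_Icc_self hx)) ht
  simpa [arcLen_zero] using h0

theorem fence_norm {f f' : ℝ → E} {d : ℝ → E} (hd : Continuous d) (K : ℝ)
    (hf : ∀ t ∈ Icc (0 : ℝ) 1, HasDerivAt f (f' t) t) (h0 : f 0 = 0)
    (hb : ∀ t ∈ Icc (0 : ℝ) 1, ‖f' t‖ ≤ K * ‖d t‖) :
    ∀ t ∈ Icc (0 : ℝ) 1, ‖f t‖ ≤ K * arcLen d t := by
  intro t ht
  refine image_norm_le_of_norm_deriv_right_le_deriv_boundary (f := f) (f' := f') (a := 0) (b := 1)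
    (B := fun t => K * arcLen d t) (B' := fun t => K * ‖d t‖)
    (fun x hx => (hf x hx).continuousAt.continuousWithinAt)
    (fun x hx => (hf x (Ico_subset_Icc_self hx)).hasDerivWithinAt) ?_
    (fun x => ((hasDerivAt_arcLen hd x).const_mul K))
    (fun x hx => hb x (Ico_subset_Icc_self hx)) ht
  simp [arcLen_zero, h0]

theorem NearGeo.close {κ : ℝ} {c d P F : ℝ → E} (h : NearGeo κ c d P F) (hκ : 0 ≤ κ)
    {u : E} (hu : d 0 = ‖d 0‖ • u) (h4 : arcLen d 1 ≤ 4) :
    ∀ t ∈ Icc (0 : ℝ) 1, ‖c t - arc (c 0) u (arcLen d t)‖ ≤ 17 * κ ∧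
      ‖d t - ‖d t‖ • ((-sin (arcLen d t)) • c 0 + cos (arcLen d t) • u)‖ ≤ 18 * κ * ‖d t‖ := by
  have h01 : (0 : ℝ) ∈ Icc (0 : ℝ) 1 := ⟨le_rfl, zero_le_one⟩
  have hs := hasDerivAt_arcLen h.hd
  have hP0 : ‖P 0 - u‖ ≤ κ := by
    have h1 := h.mom 0 h01
    have hw : 0 < ‖d 0‖ := norm_pos_iff.2 (h.ne 0 h01)
    have e : d 0 - ‖d 0‖ • P 0 = -(‖d 0‖ • (P 0 - u)) := by
      conv_lhs => rw [hu]
      rw [smul_sub]; simp [← hu]
    rw [e, norm_neg, norm_smul, Real.norm_eq_abs, abs_of_pos hw, mul_comm] at h1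
    exact le_of_mul_le_mul_right h1 hw
  have hA := fence_norm (f := fun t => cos (arcLen d t) • c t - sin (arcLen d t) • P t - c 0)
    (f' := fun t => cos (arcLen d t) • (d t - ‖d t‖ • P t) +
      (-sin (arcLen d t)) • (F t + ‖d t‖ • c t)) h.hd (2 * κ)
    (fun t ht => by
      have := (((hs t).cos.smul (h.hc t)).sub ((hs t).sin.smul (h.hP t ht))).sub_const (c 0)
      exact this.congr_deriv (by module))
    (by simp [arcLen_zero])
    (fun t ht => by
      refine (norm_two_le _ _ (abs_cos_le_one _) (by simpa using abs_sin_le_one _) _ _).trans ?_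
      have := h.mom t ht
      have := h.frc t ht
      linarith)
  have hB := fence_norm (f := fun t => sin (arcLen d t) • c t + cos (arcLen d t) • P t - P 0)
    (f' := fun t => sin (arcLen d t) • (d t - ‖d t‖ • P t) +
      cos (arcLen d t) • (F t + ‖d t‖ • c t)) h.hd (2 * κ)
    (fun t ht => by
      have := (((hs t).sin.smul (h.hc t)).add ((hs t).cos.smul (h.hP t ht))).sub_const (P 0)
      exact this.congr_deriv (by module))
    (by simp [arcLen_zero])
    (fun t ht => by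
      refine (norm_two_le _ _ (abs_sin_le_one _) (abs_cos_le_one _) _ _).trans ?_
      have := h.mom t ht
      have := h.frc t ht
      linarith)
  intro t ht
  have hst : arcLen d t ≤ 4 := (arcLen_mono h.hd ht.2).trans h4
  have a1 := hA t ht
  have b1 := hB t ht
  set s := arcLen d t
  have a2 : ‖cos s • c t - sin s • P t - c 0‖ ≤ 8 * κ := a1.trans (by nlinarith)
  have b2 : ‖sin s • c t + cos s • P t - u‖ ≤ 9 * κ := by
    have e : sin s • c t + cos s • P t - u = (sin s • c t + cos s • P t - P 0) + (P 0 - u) := by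
      abel
    rw [e]
    refine (norm_add_le _ _).trans ?_
    nlinarith
  have hcs := cos_sq_add_sin_sq s
  have e1 : c t - arc (c 0) u s = cos s • (cos s • c t - sin s • P t - c 0) +
      sin s • (sin s • c t + cos s • P t - u) := by
    have : c t = (cos s ^ 2 + sin s ^ 2) • c t := by rw [hcs, one_smul]
    conv_lhs => rw [this]
    unfold arc
    module
  have e2 : P t - ((-sin s) • c 0 + cos s • u) = (-sin s) • (cos s • c t - sin s • P t - c 0) +
      cos s • (sin s • c t + cos s • P t - u) := by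
    have : P t = (cos s ^ 2 + sin s ^ 2) • P t := by rw [hcs, one_smul]
    conv_lhs => rw [this]
    module
  refine ⟨?_, ?_⟩
  · rw [e1]
    refine (norm_two_le _ _ (abs_cos_le_one _) (abs_sin_le_one _) _ _).trans ?_
    linarith
  · have p1 : ‖P t - ((-sin s) • c 0 + cos s • u)‖ ≤ 17 * κ := by
      rw [e2]
      refine (norm_two_le _ _ (by simpa using abs_sin_le_one _) (abs_cos_le_one _) _ _).trans ?_
      linarith
    have e3 : d t - ‖d t‖ • ((-sin s) • c 0 + cos s • u) = (d t - ‖d t‖ • P t) +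
        ‖d t‖ • (P t - ((-sin s) • c 0 + cos s • u)) := by module
    rw [e3]
    refine (norm_add_le _ _).trans ?_
    rw [norm_smul, Real.norm_eq_abs, abs_of_nonneg (norm_nonneg _)]
    have := h.mom t ht
    have := norm_nonneg (d t)
    nlinarith

theorem one_sub_inner {a b : E} (ha : ‖a‖ = 1) (hb : ‖b‖ = 1) :
    1 - inner ℝ a b = ‖a - b‖ ^ 2 / 2 := by
  rw [norm_sub_sq_real, ha, hb]; ring

/-- The integral of `hfun` along a great circle. -/
noncomputable def Phi (y u : E) (σ : ℝ) : ℝ := ∫ r in (0 : ℝ)..σ, hfun (arc y u r)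

theorem hasDerivAt_Phi (y u : E) (σ : ℝ) : HasDerivAt (Phi y u) (hfun (arc y u σ)) σ :=
  ((continuous_hfun.comp (continuous_arc y u)).integral_hasStrictDerivAt 0 σ).hasDerivAt

theorem NearGeo.est {κ ε : ℝ} {c d P F : ℝ → E} (h : NearGeo κ c d P F) (hκ : 0 ≤ κ)
    (hε : 0 ≤ ε) {u : E} (hu1 : ‖u‖ = 1) (hu : d 0 = ‖d 0‖ • u) (h4 : arcLen d 1 ≤ 4) :
    inner ℝ (c 1) u * cos (arcLen d 1) - inner ℝ (c 1) (c 0) * sin (arcLen d 1) ≤ 600 * κ ^ 2 ∧
    (arcLen d 1 ≤ 1 → (1 / 2 - 18 * κ) * arcLen d 1 ≤ inner ℝ (c 1) u) ∧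
    arcLen d 1 + ε * Phi (c 0) u (arcLen d 1) - 544 * ε * κ ≤
      ∫ t in (0 : ℝ)..1, (1 + ε * hfun (c t)) * ‖d t‖ := by
  have h01 : (0 : ℝ) ∈ Icc (0 : ℝ) 1 := ⟨le_rfl, zero_le_one⟩
  have h11 : (1 : ℝ) ∈ Icc (0 : ℝ) 1 := ⟨zero_le_one, le_rfl⟩
  have hs := hasDerivAt_arcLen h.hd
  have hcl := h.close hκ hu h4
  have hy : ‖c 0‖ = 1 := h.unit 0 h01
  have hw0 : 0 < ‖d 0‖ := norm_pos_iff.2 (h.ne 0 h01)
  have hyu : inner ℝ (c 0) u = 0 := by
    have := h.tang 0 h01
    rw [hu, inner_smul_right] at this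
    exact (mul_eq_zero.1 this).resolve_left hw0.ne'
  have hs0 : ∀ t ∈ Icc (0 : ℝ) 1, 0 ≤ arcLen d t := fun t ht => by
    simpa [arcLen_zero] using arcLen_mono h.hd ht.1
  refine ⟨?_, ?_, ?_⟩
  · have := fence (f := fun t => inner ℝ (c t) u * cos (arcLen d t) -
        inner ℝ (c t) (c 0) * sin (arcLen d t))
      (f' := fun t => inner ℝ (d t) ((-sin (arcLen d t)) • c 0 + cos (arcLen d t) • u) -
        ‖d t‖ * inner ℝ (c t) (arc (c 0) u (arcLen d t))) h.hd (150 * κ ^ 2)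
      (fun t _ => by
        have := (((h.hc t).inner ℝ (hasDerivAt_const t u)).mul (hs t).cos).sub
          (((h.hc t).inner ℝ (hasDerivAt_const t (c 0))).mul (hs t).sin)
        refine this.congr_deriv ?_
        simp only [arc, inner_add_right, inner_smul_right, inner_zero_right]
        ring)
      (by simp [arcLen_zero, hyu])
      (fun t ht => by
        have e1 := one_sub_inner (h.unit t ht) (norm_arc hy hu1 hyu (arcLen d t))
        have e2 := (hcl t ht).1
        have e3 : ‖(-sin (arcLen d t)) • c 0 + cos (arcLen d t) • u‖ = 1 :=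
          norm_comb_one hy hu1 hyu (by rw [neg_sq]; exact sin_sq_add_cos_sq _)
        have e4 := real_inner_le_norm (d t) ((-sin (arcLen d t)) • c 0 + cos (arcLen d t) • u)
        rw [e3, mul_one] at e4
        have e5 : ‖c t - arc (c 0) u (arcLen d t)‖ ^ 2 ≤ (17 * κ) ^ 2 :=
          pow_le_pow_left₀ (norm_nonneg _) e2 2
        have e6 : 1 - inner ℝ (c t) (arc (c 0) u (arcLen d t)) ≤ 150 * κ ^ 2 := by nlinarith
        have e7 := norm_nonneg (d t)
        nlinarith) 1 h11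
    nlinarith [sq_nonneg κ]
  · intro h1
    have := fence (f := fun t => -inner ℝ (c t) u) (f' := fun t => -inner ℝ (d t) u) h.hd
      (-(1 / 2 - 18 * κ))
      (fun t _ => by
        have := ((h.hc t).inner ℝ (hasDerivAt_const t u)).neg
        refine this.congr_deriv ?_
        simp)
      (by simp [hyu])
      (fun t ht => by
        have e2 := (hcl t ht).2
        have hst : arcLen d t ≤ 1 := (arcLen_mono h.hd ht.2).trans h1
        have hc1 : 1 / 2 ≤ cos (arcLen d t) := by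
          have := one_sub_sq_div_two_le_cos (x := arcLen d t)
          have := hs0 t ht
          nlinarith
        have e3 := abs_real_inner_le_norm
          (d t - ‖d t‖ • ((-sin (arcLen d t)) • c 0 + cos (arcLen d t) • u)) u
        rw [hu1, mul_one, inner_sub_left, inner_smul_left, inner_add_left, inner_smul_left,
          inner_smul_left, hyu, real_inner_self_eq_norm_sq, hu1] at e3
        simp only [conj_trivial, mul_zero, one_pow, mul_one, zero_add] at e3
        have e4 := (abs_le.1 (e3.trans e2)).1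
        have e7 := norm_nonneg (d t)
        nlinarith) 1 h11
    linarith
  · have hcont : Continuous fun t => (1 + ε * hfun (c t)) * ‖d t‖ := by
      have hcc : Continuous c := continuous_iff_continuousAt.2 fun t => (h.hc t).continuousAt
      exact (continuous_const.add (continuous_const.mul (continuous_hfun.comp hcc))).mul h.hd.norm
    have := fence (f := fun t => arcLen d t + ε * Phi (c 0) u (arcLen d t) -
        ∫ r in (0 : ℝ)..t, (1 + ε * hfun (c r)) * ‖d r‖)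
      (f' := fun t => ε * ‖d t‖ * (hfun (arc (c 0) u (arcLen d t)) - hfun (c t))) h.hd
      (136 * ε * κ)
      (fun t _ => by
        have := ((hs t).add (((hasDerivAt_Phi (c 0) u (arcLen d t)).comp t (hs t)).const_mul ε)).sub
          (hcont.integral_hasStrictDerivAt 0 t).hasDerivAt
        refine this.congr_deriv ?_
        ring)
      (by simp [arcLen_zero, Phi])
      (fun t ht => by
        have e1 := hfun_lip (norm_arc hy hu1 hyu (arcLen d t)).le (h.unit t ht).le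
        rw [norm_sub_rev] at e1
        have e2 := (hcl t ht).1
        have e3 : hfun (arc (c 0) u (arcLen d t)) - hfun (c t) ≤ 136 * κ := by
          linarith [le_abs_self (hfun (arc (c 0) u (arcLen d t)) - hfun (c t))]
        have e7 := mul_nonneg hε (norm_nonneg (d t))
        nlinarith) 1 h11
    nlinarith [mul_nonneg hε hκ]

theorem arc_add_pi (y u : E) (σ : ℝ) : arc y u (σ + π) = -arc y u σ := by
  simp only [arc, cos_add_pi, sin_add_pi]; module

theorem Phi_add_pi (y u : E) (σ : ℝ) : Phi y u (σ + π) + Phi y u σ = Phi y u π := by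
  have hd : ∀ x, HasDerivAt (fun σ => Phi y u (σ + π) + Phi y u σ) 0 x := fun x => by
    have := ((hasDerivAt_Phi y u (x + π)).comp_add_const x π).add (hasDerivAt_Phi y u x)
    refine this.congr_deriv ?_
    rw [arc_add_pi, hfun_neg]; ring
  have := is_const_of_deriv_eq_zero (fun x => (hd x).differentiableAt) (fun x => (hd x).deriv) σ 0
  simpa [Phi] using this

theorem Phi_neg (y u : E) (σ : ℝ) : Phi y (-u) σ + Phi y u (2 * π - σ) = 0 := by
  have hd : ∀ x, HasDerivAt (fun σ => Phi y (-u) σ + Phi y u (2 * π - σ)) 0 x := fun x => by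
    have := (hasDerivAt_Phi y (-u) x).add
      ((hasDerivAt_Phi y u (2 * π - x)).comp x ((hasDerivAt_id x).const_sub (2 * π)))
    refine this.congr_deriv ?_
    have : arc y u (2 * π - x) = arc y (-u) x := by
      simp only [arc, cos_two_pi_sub, sin_two_pi_sub]; module
    rw [this]; ring
  have h1 := is_const_of_deriv_eq_zero (fun x => (hd x).differentiableAt)
    (fun x => (hd x).deriv) σ 0
  have h2 := Phi_add_pi y u π
  have h3 : Phi y (-u) 0 = 0 := by simp [Phi]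
  simp only [sub_zero] at h1
  rw [h1, h3, two_mul]
  linarith

theorem Phi_lip {y u : E} (hy : ‖y‖ = 1) (hu : ‖u‖ = 1) (hyu : inner ℝ y u = 0) (a b : ℝ) :
    |Phi y u a - Phi y u b| ≤ 2 * |a - b| := by
  have := Convex.norm_image_sub_le_of_norm_hasDerivWithin_le (f := Phi y u)
    (f' := fun σ => hfun (arc y u σ)) (C := 2) (s := univ)
    (fun x _ => (hasDerivAt_Phi y u x).hasDerivWithinAt)
    (fun x _ => abs_hfun_le (norm_arc hy hu hyu x).le) convex_univ (mem_univ b) (mem_univ a)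
  simpa using this

end Pool.Agent.Lib.MP_da270e_gt
end

-- part Pool.Agent.Lib.MP_da270e_gt.Theta
section

/-!
Radial projection to the sphere and the energy density of projected curves.
-/

set_option autoImplicit false

namespace Pool.Agent.Lib.MP_da270e_gt

open Set Real

/-- Radial projection. -/
noncomputable def nu (q : E) : E := ‖q‖⁻¹ • q

/-- The differential of the radial projection. -/
noncomputable def NN (q w : E) : E := ‖q‖⁻¹ • w - (inner ℝ q w * ‖q‖⁻¹ ^ 3) • q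

/-- Energy density of the projected curve. -/
noncomputable def Theta (g : E → E →L[ℝ] E →L[ℝ] ℝ) (x : E × E) : ℝ :=
  g (nu x.1) (NN x.1 x.2) (NN x.1 x.2)

theorem hasDerivAt_inv_norm {q : ℝ → E} {w : E} {t : ℝ} (h : HasDerivAt q w t) (h0 : q t ≠ 0) :
    HasDerivAt (fun t => ‖q t‖⁻¹) (-(inner ℝ (q t) w * ‖q t‖⁻¹ ^ 3)) t := by
  have hn : 0 < ‖q t‖ := norm_pos_iff.2 h0
  have h1 := h.norm_sq.sqrt (pow_pos hn 2).ne'
  simp only [sqrt_sq (norm_nonneg _)] at h1
  refine (h1.inv hn.ne').congr_deriv ?_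
  field_simp

theorem hasDerivAt_nu {q : ℝ → E} {w : E} {t : ℝ} (h : HasDerivAt q w t) (h0 : q t ≠ 0) :
    HasDerivAt (fun t => nu (q t)) (NN (q t) w) t := by
  refine ((hasDerivAt_inv_norm h h0).smul h).congr_deriv ?_
  unfold NN
  module

theorem norm_nu {q : E} (h0 : q ≠ 0) : ‖nu q‖ = 1 := by
  rw [nu, norm_smul, norm_inv, norm_norm, inv_mul_cancel₀ (norm_ne_zero_iff.2 h0)]

theorem inner_nu_NN {q : E} (h0 : q ≠ 0) (w : E) : inner ℝ (nu q) (NN q w) = 0 := by
  have hn : ‖q‖ ≠ 0 := norm_ne_zero_iff.2 h0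
  rw [nu, NN, inner_smul_left, inner_sub_right, inner_smul_right, inner_smul_right,
    real_inner_self_eq_norm_sq]
  simp only [conj_trivial]
  field_simp
  ring

theorem nu_unit {c : E} (hc : ‖c‖ = 1) : nu c = c := by simp [nu, hc]

theorem NN_unit {c : E} (hc : ‖c‖ = 1) (z : E) : NN c z = z - inner ℝ c z • c := by
  simp [NN, hc]

theorem contDiffAt_nu {q : E} (h0 : q ≠ 0) : ContDiffAt ℝ 1 nu q :=
  ((contDiffAt_norm ℝ h0).inv (norm_ne_zero_iff.2 h0)).smul contDiffAt_id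

theorem contDiffAt_NN {x : E × E} (h0 : x.1 ≠ 0) : ContDiffAt ℝ 1 (fun x : E × E => NN x.1 x.2) x := by
  have h1 : ContDiffAt ℝ 1 (fun x : E × E => ‖x.1‖⁻¹) x :=
    (contDiffAt_fst.norm ℝ h0).inv (norm_ne_zero_iff.2 h0)
  exact (h1.smul contDiffAt_snd).sub
    (((contDiffAt_fst.inner ℝ contDiffAt_snd).mul (h1.pow 3)).smul contDiffAt_fst)

theorem contDiffAt_Theta {g : E → E →L[ℝ] E →L[ℝ] ℝ} (hg : ContDiff ℝ 1 g) {x : E × E}
    (h0 : x.1 ≠ 0) : ContDiffAt ℝ 1 (Theta g) x :=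
  ((hg.contDiffAt.comp x ((contDiffAt_nu h0).comp x contDiffAt_fst)).clm_apply
    (contDiffAt_NN h0)).clm_apply (contDiffAt_NN h0)

theorem IsMetric.nonneg {g : E → E →L[ℝ] E →L[ℝ] ℝ} (hg : IsMetric g) {p v : E} (hp : ‖p‖ = 1)
    (hv : inner ℝ p v = 0) : 0 ≤ g p v v := by
  by_cases h : v = 0
  · simp [h]
  · exact (hg.2.2 p v hp hv h).le

theorem Theta_nonneg {g : E → E →L[ℝ] E →L[ℝ] ℝ} (hg : IsMetric g) {x : E × E} (h0 : x.1 ≠ 0) :
    0 ≤ Theta g x :=
  hg.nonneg (norm_nu h0) (inner_nu_NN h0 _)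

theorem hasDerivAt_Theta {g : E → E →L[ℝ] E →L[ℝ] ℝ} (hg : IsMetric g) {c d : E} (hc : ‖c‖ = 1)
    (hd : inner ℝ c d = 0) (z y : E) :
    HasDerivAt (fun τ : ℝ => Theta g (c + τ • z, d + τ • y))
      (cov g c (z - inner ℝ c z • c) d d - 2 * inner ℝ c z * g c d d +
        2 * g c d (y - inner ℝ c y • c)) 0 := by
  have h0 : c + (0 : ℝ) • z ≠ 0 := by
    intro h; simp at h; simp [h] at hc
  have q1 : HasDerivAt (fun τ : ℝ => c + τ • z) z 0 :=
    (((hasDerivAt_id (0 : ℝ)).smul_const z).const_add c).congr_deriv (by simp)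
  have q2 : HasDerivAt (fun τ : ℝ => d + τ • y) y 0 :=
    (((hasDerivAt_id (0 : ℝ)).smul_const y).const_add d).congr_deriv (by simp)
  have n1 := hasDerivAt_nu q1 h0
  have i1 := hasDerivAt_inv_norm q1 h0
  have n2 : HasDerivAt (fun τ : ℝ => NN (c + τ • z) (d + τ • y))
      ((y - inner ℝ c y • c) - inner ℝ c z • d - inner ℝ z d • c) 0 := by
    refine ((i1.smul q2).sub (((q1.inner ℝ q2).mul (i1.pow 3)).smul q1)).congr_deriv ?_
    simp [hc, hd]
    module
  have hgd : HasFDerivAt g (fderiv ℝ g c) (nu (c + (0 : ℝ) • z)) := by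
    have : nu (c + (0 : ℝ) • z) = c := by simp [nu_unit hc]
    rw [this]
    exact (hg.1.differentiable (by simp) c).hasFDerivAt
  have n3 : HasDerivAt (fun τ : ℝ => g (nu (c + τ • z))) (fderiv ℝ g c (NN (c + (0 : ℝ) • z) z)) 0 :=
    HasFDerivAt.comp_hasDerivAt (F := E) (E := E →L[ℝ] E →L[ℝ] ℝ) (l := g) (0 : ℝ) hgd n1
  refine ((n3.clm_apply n2).clm_apply n2).congr_deriv ?_
  have hcc : inner ℝ c c = (1 : ℝ) := by rw [real_inner_self_eq_norm_sq, hc]; norm_num
  have e1 : NN c d = d := by simp [NN_unit hc, hd]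
  have e2 := hg.2.1 c d c
  have e3 := hg.2.1 c d y
  simp only [zero_smul, add_zero, nu_unit hc, e1, NN_unit hc z, cov,
    add_apply, map_sub, map_smul, sub_apply,
    smul_apply, smul_eq_mul, inner_sub_left, inner_smul_left, hd, conj_trivial]
  rw [e2, e3]
  ring

theorem rho_le (g : E → E →L[ℝ] E →L[ℝ] ℝ) {p p' : ℝ → E}
    (hp : ∀ t ∈ Icc (0 : ℝ) 1, HasDerivAt p (p' t) t) (hc : ContinuousOn p' (Icc 0 1))
    (hu : ∀ t ∈ Icc (0 : ℝ) 1, ‖p t‖ = 1) :
    rho g (p 0) (p 1) ≤ ∫ t in (0 : ℝ)..1, √(g (p t) (p' t) (p' t)) := by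
  have hf : Continuous fun t => p' (projIcc (0 : ℝ) 1 zero_le_one t) :=
    hc.comp_continuous (continuous_subtype_val.comp continuous_projIcc) fun t => Subtype.prop _
  have hq : ∀ t, HasDerivAt (fun t => p 0 + ∫ r in (0 : ℝ)..t, p' (projIcc (0 : ℝ) 1 zero_le_one r))
      (p' (projIcc (0 : ℝ) 1 zero_le_one t)) t := fun t =>
    (hf.integral_hasStrictDerivAt 0 t).hasDerivAt.const_add _
  set q := fun t => p 0 + ∫ r in (0 : ℝ)..t, p' (projIcc (0 : ℝ) 1 zero_le_one r) with hqdef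
  have hqp : ∀ t ∈ Icc (0 : ℝ) 1, q t = p t := fun t ht => by
    have hs : uIcc 0 t ⊆ Icc (0 : ℝ) 1 := by
      rw [uIcc_of_le ht.1]; exact Icc_subset_Icc le_rfl ht.2
    have e : ∫ r in (0 : ℝ)..t, p' (projIcc (0 : ℝ) 1 zero_le_one r) = ∫ r in (0 : ℝ)..t, p' r :=
      intervalIntegral.integral_congr fun r hr => by simp only [projIcc_of_mem _ (hs hr)]
    simp only [hqdef]
    rw [e, intervalIntegral.integral_eq_sub_of_hasDerivAt (fun r hr => hp r (hs hr))
      ((hc.mono hs).intervalIntegrable)]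
    abel
  have hd : deriv q = fun t => p' (projIcc (0 : ℝ) 1 zero_le_one t) := funext fun t => (hq t).deriv
  refine csInf_le ⟨0, ?_⟩ ⟨q, ⟨?_, fun t ht => by rw [hqp t ht, hu t ht],
    hqp 0 ⟨le_rfl, zero_le_one⟩, hqp 1 ⟨zero_le_one, le_rfl⟩⟩, ?_⟩
  · rintro L ⟨c, -, rfl⟩
    exact intervalIntegral.integral_nonneg zero_le_one fun t _ => sqrt_nonneg _
  · exact contDiff_one_iff_deriv.2 ⟨fun t => (hq t).differentiableAt, hd ▸ hf⟩
  · unfold len
    refine intervalIntegral.integral_congr fun t ht => ?_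
    rw [uIcc_of_le zero_le_one] at ht
    simp only [hd, hqp t ht, projIcc_of_mem _ ht]

theorem IsPath.tang {c : ℝ → E} {a b : E} (h : IsPath c a b) {t : ℝ} (ht : t ∈ Icc (0 : ℝ) 1) :
    inner ℝ (c t) (deriv c t) = 0 := by
  have hd : HasDerivAt c (deriv c t) t := (h.1.differentiable one_ne_zero t).hasDerivAt
  have h1 : HasDerivWithinAt (fun t => ‖c t‖ ^ 2) (2 * inner ℝ (c t) (deriv c t)) (Icc 0 1) t :=
    hd.norm_sq.hasDerivWithinAt
  have h2 : HasDerivWithinAt (fun t => ‖c t‖ ^ 2) 0 (Icc 0 1) t :=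
    (hasDerivWithinAt_const t (Icc 0 1) (1 : ℝ)).congr (fun r hr => by rw [h.2.1 r hr]; norm_num)
      (by rw [h.2.1 t ht]; norm_num)
  have := (uniqueDiffOn_Icc zero_lt_one t ht).eq_deriv _ h1 h2
  linarith

end Pool.Agent.Lib.MP_da270e_gt
end

-- part Pool.Agent.Lib.MP_da270e_gt.Var
section

/-!
First variation: a segment of a metric close to the round one almost solves the great circle
equation.
-/

set_option autoImplicit false
set_option maxSynthPendingDepth 3

namespace Pool.Agent.Lib.MP_da270e_gt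

open Set Real

theorem hasDerivAt_param {X : Type} [NormedAddCommGroup X] [NormedSpace ℝ X] {Θ : X → ℝ}
    {U : Set X} (hU : IsOpen U) (hΘ : ContDiffOn ℝ 1 Θ U) {x y : ℝ → X} {k : ℝ → ℝ}
    (hx : Continuous x) (hy : Continuous y) (hk : Continuous k) {δ : ℝ} (hδ : 0 < δ)
    (h0 : ∀ τ ∈ Icc (-δ) δ, ∀ t ∈ Icc (0 : ℝ) 1, x t + τ • y t ∈ U) :
    HasDerivAt (fun τ : ℝ => ∫ t in (0 : ℝ)..1, k t * Θ (x t + τ • y t))
      (∫ t in (0 : ℝ)..1, k t * fderiv ℝ Θ (x t) (y t)) 0 := by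
  have hm : Continuous fun z : ℝ × ℝ => x z.2 + z.1 • y z.2 := by fun_prop
  have hmaps : MapsTo (fun z : ℝ × ℝ => x z.2 + z.1 • y z.2) (Icc (-δ) δ ×ˢ Icc (0 : ℝ) 1) U :=
    fun z hz => h0 z.1 hz.1 z.2 hz.2
  have c0 : ContinuousOn (fun z : ℝ × ℝ => k z.2 * Θ (x z.2 + z.1 • y z.2))
      (Icc (-δ) δ ×ˢ Icc (0 : ℝ) 1) :=
    (hk.comp continuous_snd).continuousOn.mul (hΘ.continuousOn.comp hm.continuousOn hmaps)
  have c1 : ContinuousOn (fun z : ℝ × ℝ => k z.2 * fderiv ℝ Θ (x z.2 + z.1 • y z.2) (y z.2))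
      (Icc (-δ) δ ×ˢ Icc (0 : ℝ) 1) :=
    (hk.comp continuous_snd).continuousOn.mul
      (((hΘ.continuousOn_fderiv_of_isOpen hU le_rfl).comp hm.continuousOn hmaps).clm_apply
        (hy.comp continuous_snd).continuousOn)
  have sl : ∀ {f : ℝ × ℝ → ℝ}, ContinuousOn f (Icc (-δ) δ ×ˢ Icc (0 : ℝ) 1) → ∀ τ ∈ Icc (-δ) δ,
      IntervalIntegrable (fun t => f (τ, t)) MeasureTheory.volume 0 1 := fun {f} hf τ hτ =>
    (hf.comp (Continuous.prodMk_right τ).continuousOn fun t ht => ⟨hτ, ht⟩).intervalIntegrable_of_Icc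
      zero_le_one
  obtain ⟨B, hB⟩ := (isCompact_Icc.prod isCompact_Icc).exists_bound_of_continuousOn c1
  have hs : Icc (-δ) δ ∈ nhds (0 : ℝ) := Icc_mem_nhds (by linarith) hδ
  have hz : (0 : ℝ) ∈ Icc (-δ) δ := ⟨by linarith, hδ.le⟩
  have hI : ∀ t ∈ uIoc (0 : ℝ) 1, t ∈ Icc (0 : ℝ) 1 := fun t ht => by
    rw [uIoc_of_le zero_le_one] at ht; exact Ioc_subset_Icc_self ht
  have := (intervalIntegral.hasDerivAt_integral_of_dominated_loc_of_deriv_le
    (μ := MeasureTheory.volume) (a := 0) (b := 1) (bound := fun _ => B)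
    (F := fun τ t => k t * Θ (x t + τ • y t))
    (F' := fun τ t => k t * fderiv ℝ Θ (x t + τ • y t) (y t)) hs
    (Filter.mem_of_superset hs fun τ hτ => (sl c0 τ hτ).def'.aestronglyMeasurable)
    (sl c0 0 hz) (sl c1 0 hz).def'.aestronglyMeasurable
    (Filter.Eventually.of_forall fun t ht τ hτ => hB (τ, t) ⟨hτ, hI t ht⟩)
    intervalIntegrable_const
    (Filter.Eventually.of_forall fun t ht τ hτ => by
      have h1 : HasFDerivAt Θ (fderiv ℝ Θ (x t + τ • y t)) (x t + τ • y t) :=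
        ((hΘ.contDiffAt (hU.mem_nhds (h0 τ hτ t (hI t ht)))).differentiableAt
          one_ne_zero).hasFDerivAt
      have h2 : HasDerivAt (fun τ : ℝ => x t + τ • y t) (y t) τ :=
        (((hasDerivAt_id τ).smul_const (y t)).const_add (x t)).congr_deriv (by simp)
      exact (h1.comp_hasDerivAt τ h2).const_mul (k t))).2
  simpa using this

theorem fderiv_Theta {g : E → E →L[ℝ] E →L[ℝ] ℝ} (hg : IsMetric g) {c d : E} (hc : ‖c‖ = 1)
    (hd : inner ℝ c d = 0) (z y : E) :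
    fderiv ℝ (Theta g) (c, d) (z, y) =
      cov g c (z - inner ℝ c z • c) d d - 2 * inner ℝ c z * g c d d +
        2 * g c d (y - inner ℝ c y • c) := by
  have h0 : c ≠ 0 := by
    intro h; simp [h] at hc
  have h1 : HasFDerivAt (Theta g) (fderiv ℝ (Theta g) (c, d)) ((c, d) + (0 : ℝ) • (z, y)) := by
    rw [zero_smul, add_zero]
    exact ((contDiffAt_Theta (hg.1.of_le (by simp)) (x := (c, d)) h0).differentiableAt
      one_ne_zero).hasFDerivAt
  have h2 : HasDerivAt (fun τ : ℝ => ((c, d) : E × E) + τ • (z, y)) (z, y) 0 :=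
    (((hasDerivAt_id (0 : ℝ)).smul_const (z, y)).const_add (c, d)).congr_deriv (by simp)
  have h3 := h1.comp_hasDerivAt (0 : ℝ) h2
  exact h3.unique (hasDerivAt_Theta hg hc hd z y)

/-- The first variation of the energy of a segment vanishes. -/
theorem first_variation {g : E → E →L[ℝ] E →L[ℝ] ℝ} (hg : IsMetric g) {c : ℝ → E} {a b : E}
    (hs : IsSegment g c a b) {v : ℝ → ℝ} (hv : Continuous v) (hv0 : ∀ t, 0 < v t)
    (hvc : ∀ t ∈ Icc (0 : ℝ) 1, v t = √(g (c t) (deriv c t) (deriv c t))) {φ ψ : ℝ → E}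
    (hφ : ∀ t, HasDerivAt φ (ψ t) t) (hψ : Continuous ψ) (h0 : φ 0 = 0) (h1 : φ 1 = 0) :
    ∫ t in (0 : ℝ)..1, (2 * v t)⁻¹ * fderiv ℝ (Theta g) (c t, deriv c t) (φ t, ψ t) = 0 := by
  obtain ⟨hp, -, hlen⟩ := hs
  have hcc : Continuous c := hp.1.continuous
  have hdc : Continuous (deriv c) := hp.1.continuous_deriv le_rfl
  have hcd : ∀ t, HasDerivAt c (deriv c t) t := fun t =>
    (hp.1.differentiable one_ne_zero t).hasDerivAt
  have hφc : Continuous φ := continuous_iff_continuousAt.2 fun t => (hφ t).continuousAt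
  obtain ⟨M, hM⟩ := isCompact_Icc.exists_bound_of_continuousOn (hφc.continuousOn (s := Icc 0 1))
  have hM0 : 0 ≤ M := (norm_nonneg _).trans (hM 0 ⟨le_rfl, zero_le_one⟩)
  have hδ : 0 < (M + 1)⁻¹ := by positivity
  have hne : ∀ τ ∈ Icc (-(M + 1)⁻¹) (M + 1)⁻¹, ∀ t ∈ Icc (0 : ℝ) 1, c t + τ • φ t ≠ 0 := by
    intro τ hτ t ht h
    have e : c t = -(τ • φ t) := eq_neg_of_add_eq_zero_left h
    have e1 := hp.2.1 t ht
    rw [e, norm_neg, norm_smul, Real.norm_eq_abs] at e1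
    have e2 : |τ| * ‖φ t‖ ≤ (M + 1)⁻¹ * M :=
      mul_le_mul (abs_le.2 hτ) (hM t ht) (norm_nonneg _) hδ.le
    have e3 : (M + 1)⁻¹ * (M + 1) = 1 := inv_mul_cancel₀ (by positivity)
    nlinarith
  have hU : IsOpen {x : E × E | x.1 ≠ 0} := isOpen_ne_fun continuous_fst continuous_const
  have hΘ : ContDiffOn ℝ 1 (Theta g) {x : E × E | x.1 ≠ 0} := fun x hx =>
    (contDiffAt_Theta (hg.1.of_le (by simp)) hx).contDiffWithinAt
  have hk : Continuous fun t => (2 * v t)⁻¹ :=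
    (continuous_const.mul hv).inv₀ fun t => mul_ne_zero two_ne_zero (hv0 t).ne'
  have hD := hasDerivAt_param hU hΘ (x := fun t => (c t, deriv c t)) (y := fun t => (φ t, ψ t))
    (hcc.prodMk hdc) (hφc.prodMk hψ) hk hδ hne
  refine IsLocalMin.hasDerivAt_eq_zero ?_ hD
  have hint : ∀ τ ∈ Icc (-(M + 1)⁻¹) (M + 1)⁻¹, ContinuousOn
      (fun t => Theta g ((c t, deriv c t) + τ • (φ t, ψ t))) (Icc 0 1) := fun τ hτ =>
    hΘ.continuousOn.comp (by fun_prop) fun t ht => hne τ hτ t ht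
  have hlow : ∀ τ ∈ Icc (-(M + 1)⁻¹) (M + 1)⁻¹, rho g a b ≤
      (∫ t in (0 : ℝ)..1, (2 * v t)⁻¹ * Theta g ((c t, deriv c t) + τ • (φ t, ψ t))) +
        ∫ t in (0 : ℝ)..1, v t / 2 := by
    intro τ hτ
    have hq : ∀ t, HasDerivAt (fun t => c t + τ • φ t) (deriv c t + τ • ψ t) t := fun t =>
      (hcd t).add ((hφ t).const_smul τ)
    have hN : ContinuousOn (fun t => NN (c t + τ • φ t) (deriv c t + τ • ψ t)) (Icc 0 1) :=
      fun t ht => ((contDiffAt_NN (x := (c t + τ • φ t, deriv c t + τ • ψ t))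
        (hne τ hτ t ht)).continuousAt.comp
        (f := fun t => (c t + τ • φ t, deriv c t + τ • ψ t)) (by fun_prop)).continuousWithinAt
    have h2 := rho_le g (p := fun t => nu (c t + τ • φ t))
      (fun t ht => hasDerivAt_nu (hq t) (hne τ hτ t ht)) hN fun t ht => norm_nu (hne τ hτ t ht)
    simp only [h0, h1, smul_zero, add_zero, nu_unit (hp.2.1 0 ⟨le_rfl, zero_le_one⟩),
      nu_unit (hp.2.1 1 ⟨zero_le_one, le_rfl⟩)] at h2
    rw [hp.2.2.1, hp.2.2.2] at h2
    have i1 : IntervalIntegrable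
        (fun t => (2 * v t)⁻¹ * Theta g ((c t, deriv c t) + τ • (φ t, ψ t)))
        MeasureTheory.volume 0 1 :=
      (hk.continuousOn.mul (hint τ hτ)).intervalIntegrable_of_Icc zero_le_one
    have i2 : IntervalIntegrable (fun t => v t / 2) MeasureTheory.volume 0 1 :=
      (hv.div_const 2).intervalIntegrable _ _
    refine h2.trans ?_
    rw [← intervalIntegral.integral_add i1 i2]
    refine intervalIntegral.integral_mono_on zero_le_one
      ((hint τ hτ).sqrt.intervalIntegrable_of_Icc zero_le_one) (i1.add i2) fun t ht => ?_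
    have n1 := Theta_nonneg hg (x := (c t, deriv c t) + τ • (φ t, ψ t)) (hne τ hτ t ht)
    change √(Theta g ((c t, deriv c t) + τ • (φ t, ψ t))) ≤
      (2 * v t)⁻¹ * Theta g ((c t, deriv c t) + τ • (φ t, ψ t)) + v t / 2
    set T := Theta g ((c t, deriv c t) + τ • (φ t, ψ t))
    have n2 := hv0 t
    have n3 := mul_self_sqrt n1
    rw [← sub_nonneg]
    have : (2 * v t)⁻¹ * T + v t / 2 - √T = (2 * v t)⁻¹ * (√T - v t) ^ 2 := by
      field_simp
      linear_combination -n3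
    rw [this]
    positivity
  have hzero : ∫ t in (0 : ℝ)..1, (2 * v t)⁻¹ * Theta g ((c t, deriv c t) + (0 : ℝ) • (φ t, ψ t)) =
      ∫ t in (0 : ℝ)..1, v t / 2 := intervalIntegral.integral_congr fun t ht => by
    rw [uIcc_of_le zero_le_one] at ht
    have e1 : NN (c t) (deriv c t) = deriv c t := by simp [NN_unit (hp.2.1 t ht), hp.tang ht]
    have e2 := mul_self_sqrt (hg.nonneg (hp.2.1 t ht) (hp.tang ht))
    rw [← hvc t ht] at e2
    simp only [zero_smul, add_zero, Theta, nu_unit (hp.2.1 t ht), e1, ← e2]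
    have := hv0 t
    field_simp
  have hsum : (∫ t in (0 : ℝ)..1, v t / 2) + ∫ t in (0 : ℝ)..1, v t / 2 = rho g a b := by
    rw [← hlen, ← intervalIntegral.integral_add ((hv.div_const 2).intervalIntegrable _ _)
      ((hv.div_const 2).intervalIntegrable _ _)]
    refine intervalIntegral.integral_congr fun t ht => ?_
    rw [uIcc_of_le zero_le_one] at ht
    simp only [← hvc t ht]
    ring
  filter_upwards [Icc_mem_nhds (neg_lt_zero.2 hδ) hδ] with τ hτ
  have := hlow τ hτ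
  linarith

/-- du Bois-Reymond lemma. -/
theorem duBois {m f : ℝ → E} (hm : Continuous m) (hf : Continuous f)
    (h : ∀ φ ψ : ℝ → E, (∀ t, HasDerivAt φ (ψ t) t) → Continuous ψ → φ 0 = 0 → φ 1 = 0 →
      ∫ t in (0 : ℝ)..1, (inner ℝ (f t) (φ t) + inner ℝ (m t) (ψ t)) = 0) :
    ∃ P : ℝ → E, (∀ t, HasDerivAt P (f t) t) ∧ ∀ t ∈ Icc (0 : ℝ) 1, P t = m t := by
  have hH : ∀ t, HasDerivAt (fun t => ∫ r in (0 : ℝ)..t, f r) (f t) t := fun t =>
    (hf.integral_hasStrictDerivAt 0 t).hasDerivAt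
  set H := fun t => ∫ r in (0 : ℝ)..t, f r with hHdef
  have hHc : Continuous H := continuous_iff_continuousAt.2 fun t => (hH t).continuousAt
  set K := ∫ r in (0 : ℝ)..1, (m r - H r) with hK
  have hψ : Continuous fun t => m t - H t - K := by fun_prop
  have hφ : ∀ t, HasDerivAt (fun t => ∫ r in (0 : ℝ)..t, (m r - H r - K)) (m t - H t - K) t :=
    fun t => (hψ.integral_hasStrictDerivAt 0 t).hasDerivAt
  set φ := fun t => ∫ r in (0 : ℝ)..t, (m r - H r - K) with hφdef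
  have hφc : Continuous φ := continuous_iff_continuousAt.2 fun t => (hφ t).continuousAt
  have φ0 : φ 0 = 0 := by simp [hφdef]
  have φ1 : φ 1 = 0 := by
    simp only [hφdef]
    have hmH : Continuous fun r => m r - H r := hm.sub hHc
    rw [intervalIntegral.integral_sub (hmH.intervalIntegrable _ _) intervalIntegrable_const]
    simp [hK]
  have e1 := h φ _ hφ hψ φ0 φ1
  have hP : ∀ t, HasDerivAt (fun t => H t + K) (f t) t := fun t => (hH t).add_const K
  have c2 : Continuous fun t => inner ℝ (H t + K) (m t - H t - K) + inner ℝ (f t) (φ t) := by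
    fun_prop
  have e2 := intervalIntegral.integral_eq_sub_of_hasDerivAt (a := 0) (b := 1)
    (fun t _ => (hP t).inner ℝ (hφ t)) (c2.intervalIntegrable _ _)
  simp only [φ0, φ1, inner_zero_right, sub_zero] at e2
  have c1 : Continuous fun t => inner ℝ (f t) (φ t) + inner ℝ (m t) (m t - H t - K) := by
    fun_prop
  have e3 : ∫ t in (0 : ℝ)..1, ‖m t - H t - K‖ ^ 2 = 0 := by
    have := intervalIntegral.integral_sub (μ := MeasureTheory.volume) (c1.intervalIntegrable 0 1)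
      (c2.intervalIntegrable 0 1)
    rw [e1, e2, sub_zero] at this
    refine Eq.trans ?_ this
    refine intervalIntegral.integral_congr fun t _ => ?_
    rw [← real_inner_self_eq_norm_sq, show m t - H t - K = m t - (H t + K) by abel,
      inner_sub_left]
    ring
  refine ⟨fun t => H t + K, hP, fun t ht => ?_⟩
  by_contra hne
  have := intervalIntegral.integral_lt_integral_of_continuousOn_of_le_of_exists_lt
    (f := fun _ => 0) (g := fun t => ‖m t - H t - K‖ ^ 2) zero_lt_one continuousOn_const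
    (hψ.norm.pow 2).continuousOn (fun x _ => by positivity)
    ⟨t, ht, pow_pos (norm_pos_iff.2 fun h0 => hne (by rw [sub_sub, sub_eq_zero] at h0; exact h0.symm)) 2⟩
  simp [e3] at this

/-- The vector representing a linear functional given by its values on the standard basis. -/
noncomputable def rz (l : E → ℝ) : E := ∑ i, l (EuclideanSpace.single i 1) • EuclideanSpace.single i 1

theorem inner_rz (l : E →ₗ[ℝ] ℝ) (z : E) : inner ℝ (rz l) z = l z := by
  have hz : z = ∑ i, z i • (EuclideanSpace.single i 1 : E) := by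
    ext j
    simp [Finset.sum_apply, Pi.single_apply]
  conv_rhs => rw [hz]
  simp [rz, sum_inner, inner_smul_left, EuclideanSpace.inner_single_left, mul_comm]

theorem continuous_rz {l : ℝ → E → ℝ} (h : ∀ z, Continuous fun t => l t z) :
    Continuous fun t => rz (l t) := by
  unfold rz
  exact continuous_finsetSum _ fun i _ => (h _).smul continuous_const

theorem norm_le_of_inner {x : E} {K : ℝ} (hK : 0 ≤ K) (h : ∀ z, |inner ℝ x z| ≤ K * ‖z‖) :
    ‖x‖ ≤ K := by
  have := h x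
  rw [real_inner_self_eq_norm_sq, abs_of_nonneg (sq_nonneg _)] at this
  nlinarith [norm_nonneg x]

theorem norm_proj_le {c : E} (hc : ‖c‖ = 1) (z : E) : ‖z - inner ℝ c z • c‖ ≤ ‖z‖ := by
  refine (abs_le_of_sq_le_sq' ?_ (norm_nonneg _)).2
  rw [norm_sub_sq_real, inner_smul_right, norm_smul, hc, real_inner_comm c z, Real.norm_eq_abs,
    mul_one, sq_abs]
  nlinarith [sq_nonneg (inner ℝ c z)]

theorem inner_proj {c : E} (hc : ‖c‖ = 1) (z : E) : inner ℝ c (z - inner ℝ c z • c) = 0 := by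
  rw [inner_sub_right, inner_smul_right, real_inner_self_eq_norm_sq, hc]; ring

theorem speed_bound {η w G : ℝ} (hη0 : 0 ≤ η) (hη : η ≤ 1 / 10) (hw : 0 ≤ w)
    (h : |G - w ^ 2| ≤ η * w * w) : (1 - η) * w ≤ √G ∧ √G ≤ (1 + η) * w := by
  obtain ⟨h1, h2⟩ := abs_le.1 h
  have := mul_nonneg (mul_nonneg hη0 hw) hw
  have := mul_nonneg (mul_nonneg (mul_nonneg hη0 hη0) hw) hw
  refine ⟨le_sqrt_of_sq_le (by nlinarith), sqrt_le_iff.2 ⟨by positivity, by nlinarith⟩⟩

/-- The momentum functional. -/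
noncomputable def momL (g : E → E →L[ℝ] E →L[ℝ] ℝ) (c d : E) (v : ℝ) : E →ₗ[ℝ] ℝ where
  toFun z := v⁻¹ * g c d (z - inner ℝ c z • c)
  map_add' x y := by simp [inner_add_right, add_smul]; ring
  map_smul' r x := by simp [inner_smul_right]; ring

/-- The force functional. -/
noncomputable def frcL (g : E → E →L[ℝ] E →L[ℝ] ℝ) (c d : E) (v : ℝ) : E →ₗ[ℝ] ℝ where
  toFun z := (2 * v)⁻¹ * cov g c (z - inner ℝ c z • c) d d - v * inner ℝ c z
  map_add' x y := by
    simp [cov, inner_add_right, add_smul, inner_sub_left, inner_add_left, inner_smul_left]; ring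
  map_smul' r x := by
    simp [cov, inner_smul_right, inner_sub_left, inner_smul_left]; ring

theorem IsSegment.nearGeo {g : E → E →L[ℝ] E →L[ℝ] ℝ} (hg : IsMetric g) {η : ℝ} (hη0 : 0 ≤ η)
    (hη : η ≤ 1 / 10)
    (g0 : ∀ p v w : E, ‖p‖ = 1 → inner ℝ p v = 0 → inner ℝ p w = 0 →
      |g p v w - inner ℝ v w| ≤ η * ‖v‖ * ‖w‖)
    (g1 : ∀ p u v w : E, ‖p‖ = 1 → inner ℝ p u = 0 → inner ℝ p v = 0 → inner ℝ p w = 0 →
      |cov g p u v w| ≤ η * ‖u‖ * ‖v‖ * ‖w‖)
    {c : ℝ → E} {a b : E} (hs : IsSegment g c a b) :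
    ∃ P F : ℝ → E, NearGeo (3 * η) c (deriv c) P F := by
  have hp := hs.1
  have hσ : Continuous fun t : ℝ => (projIcc (0 : ℝ) 1 zero_le_one t : ℝ) :=
    continuous_subtype_val.comp continuous_projIcc
  set σ := fun t : ℝ => (projIcc (0 : ℝ) 1 zero_le_one t : ℝ) with hσdef
  have σm : ∀ t, σ t ∈ Icc (0 : ℝ) 1 := fun t => Subtype.prop _
  have σe : ∀ t ∈ Icc (0 : ℝ) 1, σ t = t := fun t ht => by simp only [hσdef, projIcc_of_mem _ ht]
  have hcc : Continuous c := hp.1.continuous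
  have hdc : Continuous (deriv c) := hp.1.continuous_deriv le_rfl
  have hgc : Continuous g := hg.1.continuous
  have hg'c : Continuous (fderiv ℝ g) := hg.1.continuous_fderiv (by simp)
  set v := fun t => √(g (c (σ t)) (deriv c (σ t)) (deriv c (σ t))) with hvdef
  have hv : Continuous v := by simp only [hvdef]; fun_prop
  have hv0 : ∀ t, 0 < v t := fun t =>
    sqrt_pos.2 (hg.2.2 _ _ (hp.2.1 _ (σm t)) (hp.tang (σm t)) (hs.2.1 _ (σm t)))
  have hvc : ∀ t ∈ Icc (0 : ℝ) 1, v t = √(g (c t) (deriv c t) (deriv c t)) := fun t ht => by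
    simp only [hvdef, σe t ht]
  have hvi : Continuous fun t => (v t)⁻¹ := hv.inv₀ fun t => (hv0 t).ne'
  have hvi2 : Continuous fun t => (2 * v t)⁻¹ :=
    (continuous_const.mul hv).inv₀ fun t => mul_ne_zero two_ne_zero (hv0 t).ne'
  have hm : Continuous fun t => rz (momL g (c t) (deriv c t) (v t)) :=
    continuous_rz fun z => by
      change Continuous fun t => (v t)⁻¹ * g (c t) (deriv c t) (z - inner ℝ (c t) z • c t)
      exact hvi.mul (by fun_prop)
  have hf : Continuous fun t => rz (frcL g (c t) (deriv c t) (v t)) :=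
    continuous_rz fun z => by
      change Continuous fun t => (2 * v t)⁻¹ *
        cov g (c t) (z - inner ℝ (c t) z • c t) (deriv c t) (deriv c t) - v t * inner ℝ (c t) z
      unfold cov
      refine (hvi2.mul ?_).sub (by fun_prop)
      have hfd : Continuous fun t => fderiv ℝ g (c t) := hg'c.comp hcc
      refine ((((hfd.clm_apply ?_).clm_apply hdc).clm_apply hdc).sub ?_).sub ?_ <;> fun_prop
  obtain ⟨P, hP, hPm⟩ := duBois hm hf fun φ ψ hφ hψ h0 h1 => by
    refine Eq.trans ?_ (first_variation hg hs hv hv0 hvc hφ hψ h0 h1)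
    refine intervalIntegral.integral_congr fun t ht => ?_
    rw [uIcc_of_le zero_le_one] at ht
    have e2 := mul_self_sqrt (hg.nonneg (hp.2.1 t ht) (hp.tang ht))
    rw [← hvc t ht] at e2
    simp only [inner_rz, fderiv_Theta hg (hp.2.1 t ht) (hp.tang ht), ← e2]
    change (2 * v t)⁻¹ * _ - v t * _ + (v t)⁻¹ * _ = _
    have := hv0 t
    field_simp
  have hsp : ∀ t ∈ Icc (0 : ℝ) 1, (1 - η) * ‖deriv c t‖ ≤ v t ∧ v t ≤ (1 + η) * ‖deriv c t‖ :=
    fun t ht => by
    rw [hvc t ht]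
    refine speed_bound hη0 hη (norm_nonneg _) ?_
    rw [← real_inner_self_eq_norm_sq]
    exact g0 _ _ _ (hp.2.1 t ht) (hp.tang ht) (hp.tang ht)
  have hr : ∀ t ∈ Icc (0 : ℝ) 1, 0 ≤ ‖deriv c t‖ * (v t)⁻¹ ∧ ‖deriv c t‖ * (v t)⁻¹ ≤ 6 / 5 ∧
      |1 - ‖deriv c t‖ * (v t)⁻¹| ≤ 6 / 5 * η := fun t ht => by
    obtain ⟨s1, s2⟩ := hsp t ht
    have s3 := hv0 t
    have s4 := norm_nonneg (deriv c t)
    have s5 : ‖deriv c t‖ * (v t)⁻¹ ≤ 6 / 5 := by
      rw [mul_inv_le_iff₀ s3]; nlinarith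
    have s6 : 0 ≤ ‖deriv c t‖ * (v t)⁻¹ := by positivity
    have s7 : 1 - ‖deriv c t‖ * (v t)⁻¹ = (v t - ‖deriv c t‖) * (v t)⁻¹ := by field_simp
    have s8 : |v t - ‖deriv c t‖| ≤ η * ‖deriv c t‖ := abs_le.2 ⟨by linarith, by linarith⟩
    refine ⟨s6, s5, ?_⟩
    rw [s7, abs_mul, abs_of_pos (inv_pos.2 s3)]
    calc _ ≤ η * ‖deriv c t‖ * (v t)⁻¹ := by gcongr
      _ = η * (‖deriv c t‖ * (v t)⁻¹) := by ring
      _ ≤ η * (6 / 5) := by gcongr
      _ = _ := by ring
  refine ⟨P, fun t => rz (frcL g (c t) (deriv c t) (v t)),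
    fun t => (hp.1.differentiable one_ne_zero t).hasDerivAt, hdc, hp.2.1, fun t ht => hp.tang ht,
    hs.2.1, fun t _ => hP t, fun t ht => ?_, fun t ht => ?_⟩
  · refine norm_le_of_inner (by positivity) fun z => ?_
    obtain ⟨r0, r1, r2⟩ := hr t ht
    have k1 := g0 _ _ _ (hp.2.1 t ht) (hp.tang ht) (inner_proj (hp.2.1 t ht) z)
    have k2 := norm_proj_le (hp.2.1 t ht) z
    have k3 : inner ℝ (deriv c t) (z - inner ℝ (c t) z • c t) = inner ℝ (deriv c t) z := by
      rw [inner_sub_right, inner_smul_right, real_inner_comm (c t), hp.tang ht]; ring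
    have k4 := abs_real_inner_le_norm (deriv c t) z
    rw [k3] at k1
    rw [hPm t ht, inner_sub_left, inner_smul_left, inner_rz]
    change |inner ℝ (deriv c t) z - ‖deriv c t‖ * ((v t)⁻¹ * g (c t) (deriv c t) _)| ≤ _
    set G := g (c t) (deriv c t) (z - inner ℝ (c t) z • c t)
    set w := ‖deriv c t‖
    set I := inner ℝ (deriv c t) z
    have w0 : 0 ≤ w := norm_nonneg _
    have k5 : |G - I| ≤ η * w * ‖z‖ := k1.trans (by gcongr)
    calc |I - w * ((v t)⁻¹ * G)| = |(1 - w * (v t)⁻¹) * I - w * (v t)⁻¹ * (G - I)| := by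
          congr 1; ring
      _ ≤ |1 - w * (v t)⁻¹| * |I| + w * (v t)⁻¹ * |G - I| := by
          refine (abs_sub _ _).trans ?_
          rw [abs_mul, abs_mul (w * (v t)⁻¹), abs_of_nonneg r0]
      _ ≤ 6 / 5 * η * (w * ‖z‖) + 6 / 5 * (η * w * ‖z‖) := by gcongr
      _ ≤ 3 * η * w * ‖z‖ := by
          have : 0 ≤ η * w * ‖z‖ := by positivity
          linarith
  · refine norm_le_of_inner (by positivity) fun z => ?_
    obtain ⟨r0, r1, -⟩ := hr t ht
    obtain ⟨s1, s2⟩ := hsp t ht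
    have k1 := g1 _ _ _ _ (hp.2.1 t ht) (inner_proj (hp.2.1 t ht) z) (hp.tang ht) (hp.tang ht)
    have k2 := norm_proj_le (hp.2.1 t ht) z
    have k4 := abs_real_inner_le_norm (c t) z
    rw [hp.2.1 t ht, one_mul] at k4
    rw [inner_add_left, inner_smul_left, inner_rz]
    change |(2 * v t)⁻¹ * cov g (c t) _ _ _ - v t * inner ℝ (c t) z +
      ‖deriv c t‖ * inner ℝ (c t) z| ≤ _
    set G := cov g (c t) (z - inner ℝ (c t) z • c t) (deriv c t) (deriv c t)
    set w := ‖deriv c t‖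
    set I := inner ℝ (c t) z
    have w0 : 0 ≤ w := norm_nonneg _
    have v0 := hv0 t
    have k5 : |G| ≤ η * ‖z‖ * w * w := k1.trans (by gcongr)
    have k6 : |w - v t| ≤ η * w := abs_le.2 ⟨by linarith, by linarith⟩
    calc |(2 * v t)⁻¹ * G - v t * I + w * I| = |(2 * v t)⁻¹ * G + (w - v t) * I| := by
          congr 1; ring
      _ ≤ (2 * v t)⁻¹ * |G| + |w - v t| * |I| := by
          refine (abs_add_le _ _).trans ?_
          rw [abs_mul, abs_mul (w - v t), abs_of_pos (by positivity : 0 < (2 * v t)⁻¹)]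
      _ ≤ (2 * v t)⁻¹ * (η * ‖z‖ * w * w) + η * w * ‖z‖ := by gcongr
      _ = 1 / 2 * (η * w * ‖z‖) * (w * (v t)⁻¹) + η * w * ‖z‖ := by field_simp
      _ ≤ 1 / 2 * (η * w * ‖z‖) * (6 / 5) + η * w * ‖z‖ := by gcongr
      _ ≤ 3 * η * w * ‖z‖ := by
          have : 0 ≤ η * w * ‖z‖ := by positivity
          linarith

end Pool.Agent.Lib.MP_da270e_gt
end

-- part Pool.Agent.Lib.MP_da270e_gt.Paths
section

/-!
Explicit paths: great circle arcs and concatenation.
-/

set_option autoImplicit false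

namespace Pool.Agent.Lib.MP_da270e_gt

open Set Real

/-- Length for the conformal factor `1 + ε h`. -/
noncomputable def wlen (ε : ℝ) (c : ℝ → E) : ℝ :=
  ∫ t in (0 : ℝ)..1, (1 + ε * hfun (c t)) * ‖deriv c t‖

theorem hasDerivAt_arc (a b : E) (θ : ℝ) : HasDerivAt (arc a b) ((-sin θ) • a + cos θ • b) θ :=
  ((hasDerivAt_cos θ).smul_const a).add ((hasDerivAt_sin θ).smul_const b)

theorem arc_path (ε : ℝ) {a b : E} (ha : ‖a‖ = 1) (hb : ‖b‖ = 1) (hab : inner ℝ a b = 0) {α : ℝ}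
    (hα : 0 ≤ α) : IsPath (fun t => arc a b (α * t)) a (arc a b α) ∧
      wlen ε (fun t => arc a b (α * t)) = α + ε * Phi a b α := by
  have hd : ∀ t, HasDerivAt (fun t => arc a b (α * t))
      (α • ((-sin (α * t)) • a + cos (α * t) • b)) t := fun t => by
    have := (hasDerivAt_arc a b (α * t)).scomp t ((hasDerivAt_id t).const_mul α)
    exact this.congr_deriv (by simp)
  refine ⟨⟨?_, fun t _ => norm_arc ha hb hab _, by simp [arc], by simp⟩, ?_⟩
  · unfold arc; fun_prop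
  · have e : ∀ t, (1 + ε * hfun (arc a b (α * t))) * ‖deriv (fun t => arc a b (α * t)) t‖ =
        α + ε * (hfun (arc a b (α * t)) * α) := fun t => by
      rw [(hd t).deriv, norm_smul, norm_comb_one ha hb hab (by rw [neg_sq]; exact sin_sq_add_cos_sq _),
        Real.norm_eq_abs, abs_of_nonneg hα]
      ring
    unfold wlen
    simp only [e]
    have h2 : ∀ t ∈ uIcc (0 : ℝ) 1, HasDerivAt (fun t => α * t + ε * Phi a b (α * t))
        (α + ε * (hfun (arc a b (α * t)) * α)) t := fun t _ => by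
      have := ((hasDerivAt_id t).const_mul α).add
        (((hasDerivAt_Phi a b (α * t)).comp t ((hasDerivAt_id t).const_mul α)).const_mul ε)
      exact this.congr_deriv (by simp)
    rw [intervalIntegral.integral_eq_sub_of_hasDerivAt h2]
    · simp [Phi]
    · apply Continuous.intervalIntegrable
      have := continuous_hfun
      have := continuous_arc a b
      fun_prop

theorem deriv_st_nonneg (x : ℝ) : 0 ≤ deriv smoothTransition x :=
  smoothTransition.monotone.deriv_nonneg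

theorem deriv_st_left {x : ℝ} (hx : x ≤ 0) : deriv smoothTransition x = 0 := by
  apply IsLocalMin.deriv_eq_zero
  refine Filter.Eventually.of_forall fun y => ?_
  rw [smoothTransition.zero_of_nonpos hx]
  exact smoothTransition.nonneg y

theorem deriv_st_right {x : ℝ} (hx : 1 ≤ x) : deriv smoothTransition x = 0 := by
  apply IsLocalMax.deriv_eq_zero
  refine Filter.Eventually.of_forall fun y => ?_
  rw [smoothTransition.one_of_one_le hx]
  exact smoothTransition.le_one y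

theorem concat (ε : ℝ) {c₁ c₂ : ℝ → E} {p m q : E} (h₁ : IsPath c₁ p m) (h₂ : IsPath c₂ m q) :
    ∃ c, IsPath c p q ∧ wlen ε c = wlen ε c₁ + wlen ε c₂ := by
  obtain ⟨s₁, u₁, a₁, b₁⟩ := h₁
  obtain ⟨s₂, u₂, a₂, b₂⟩ := h₂
  have hσ : ContDiff ℝ 1 smoothTransition := smoothTransition.contDiff
  have hσd : ∀ x, HasDerivAt smoothTransition (deriv smoothTransition x) x := fun x =>
    (hσ.differentiable one_ne_zero x).hasDerivAt
  have hσc : Continuous (deriv smoothTransition) := hσ.continuous_deriv le_rfl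
  have hmem : ∀ x, smoothTransition x ∈ Icc (0 : ℝ) 1 := fun x =>
    ⟨smoothTransition.nonneg x, smoothTransition.le_one x⟩
  have d₁ : ∀ x, HasDerivAt c₁ (deriv c₁ x) x := fun x =>
    (s₁.differentiable one_ne_zero x).hasDerivAt
  have d₂ : ∀ x, HasDerivAt c₂ (deriv c₂ x) x := fun x =>
    (s₂.differentiable one_ne_zero x).hasDerivAt
  have t₁ : ∀ t, HasDerivAt (fun t => smoothTransition (2 * t))
      (deriv smoothTransition (2 * t) * 2) t := fun t => by
    exact ((hσd (2 * t)).comp t ((hasDerivAt_id t).const_mul 2)).congr_deriv (by simp)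
  have t₂ : ∀ t, HasDerivAt (fun t => smoothTransition (2 * t - 1))
      (deriv smoothTransition (2 * t - 1) * 2) t := fun t => by
    have := (hσd (2 * t - 1)).comp t (((hasDerivAt_id t).const_mul 2).sub_const 1)
    exact this.congr_deriv (by simp)
  set c : ℝ → E := fun t => c₁ (smoothTransition (2 * t)) + c₂ (smoothTransition (2 * t - 1)) - m
    with hc
  have hcd : ∀ t, deriv c t =
      (deriv smoothTransition (2 * t) * 2) • deriv c₁ (smoothTransition (2 * t)) +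
      (deriv smoothTransition (2 * t - 1) * 2) • deriv c₂ (smoothTransition (2 * t - 1)) :=
    fun t => ((((d₁ _).scomp t (t₁ t)).add ((d₂ _).scomp t (t₂ t))).sub_const m).deriv
  have l₁ : ∀ t, t ≤ 1 / 2 → c t = c₁ (smoothTransition (2 * t)) := fun t ht => by
    simp only [hc]
    rw [smoothTransition.zero_of_nonpos (by linarith : 2 * t - 1 ≤ 0), a₂]; abel
  have l₂ : ∀ t, 1 / 2 ≤ t → c t = c₂ (smoothTransition (2 * t - 1)) := fun t ht => by
    simp only [hc]
    rw [smoothTransition.one_of_one_le (by linarith : 1 ≤ 2 * t), b₁]; abel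
  have hsm : ContDiff ℝ 1 c := by
    refine ContDiff.sub (ContDiff.add (s₁.comp (hσ.comp ?_)) (s₂.comp (hσ.comp ?_))) contDiff_const
    · fun_prop
    · fun_prop
  refine ⟨c, ⟨hsm, fun t _ => ?_, ?_, ?_⟩, ?_⟩
  · rcases le_total t (1 / 2) with h | h
    · rw [l₁ t h]; exact u₁ _ (hmem _)
    · rw [l₂ t h]; exact u₂ _ (hmem _)
  · rw [l₁ 0 (by norm_num)]; simpa using a₁
  · rw [l₂ 1 (by norm_num)]; norm_num; exact b₂
  · have hf : ∀ {c : ℝ → E}, ContDiff ℝ 1 c →
        Continuous fun t => (1 + ε * hfun (c t)) * ‖deriv c t‖ := fun {c} h =>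
      (continuous_const.add (continuous_const.mul (continuous_hfun.comp h.continuous))).mul
        (h.continuous_deriv le_rfl).norm
    unfold wlen
    rw [← intervalIntegral.integral_add_adjacent_intervals (b := 1 / 2)
      ((hf hsm).intervalIntegrable _ _) ((hf hsm).intervalIntegrable _ _)]
    congr 1
    · have := intervalIntegral.integral_comp_mul_deriv (a := 0) (b := 1 / 2)
        (fun t _ => t₁ t) (by fun_prop) (hf s₁)
      norm_num at this
      rw [← this]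
      refine intervalIntegral.integral_congr fun t ht => ?_
      have ht' : t ≤ 1 / 2 := by
        rw [uIcc_of_le (by norm_num)] at ht; exact ht.2
      rw [hcd t, l₁ t ht', deriv_st_left (by linarith : 2 * t - 1 ≤ 0), zero_mul, zero_smul,
        add_zero, norm_smul, Real.norm_eq_abs,
        abs_of_nonneg (mul_nonneg (deriv_st_nonneg _) zero_le_two)]
      ring
    · have := intervalIntegral.integral_comp_mul_deriv (a := 1 / 2) (b := 1)
        (fun t _ => t₂ t) (by fun_prop) (hf s₂)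
      norm_num at this
      rw [← this]
      norm_num
      refine intervalIntegral.integral_congr fun t ht => ?_
      have ht' : 1 / 2 ≤ t := by
        rw [uIcc_of_le (by norm_num)] at ht; exact ht.1
      rw [hcd t, l₂ t ht', deriv_st_right (by linarith : 1 ≤ 2 * t), zero_mul, zero_smul,
        zero_add, norm_smul, Real.norm_eq_abs,
        abs_of_nonneg (mul_nonneg (deriv_st_nonneg _) zero_le_two)]
      ring

/-- Every point other than `± a` lies on a great circle arc from `a`. -/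
theorem exists_arc {a q : E} (ha : ‖a‖ = 1) (hq : ‖q‖ = 1) (h : inner ℝ a q ^ 2 < 1) :
    ∃ b : E, ‖b‖ = 1 ∧ inner ℝ a b = 0 ∧ arc a b (arccos (inner ℝ a q)) = q ∧
      inner ℝ b q = √(1 - inner ℝ a q ^ 2) := by
  set z := inner ℝ a q with hz
  have h1 : 0 < 1 - z ^ 2 := by linarith
  have hs : 0 < √(1 - z ^ 2) := sqrt_pos.2 h1
  have hz1 : |z| < 1 := by rwa [← sq_lt_one_iff_abs_lt_one]
  have hn : ‖q - z • a‖ ^ 2 = 1 - z ^ 2 := by
    rw [norm_sub_sq_real, hq, inner_smul_right, real_inner_comm, ← hz, norm_smul, ha]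
    simp [sq_abs]; ring
  refine ⟨(√(1 - z ^ 2))⁻¹ • (q - z • a), ?_, ?_, ?_, ?_⟩
  · rw [norm_smul, ← hn, sqrt_sq (norm_nonneg _), norm_inv, norm_norm]
    refine inv_mul_cancel₀ ?_
    intro h0
    rw [h0] at hn
    linarith
  · rw [inner_smul_right, inner_sub_right, inner_smul_right, real_inner_self_eq_norm_sq, ha, ← hz]
    simp
  · rw [arc, cos_arccos (abs_le.1 hz1.le).1 (abs_le.1 hz1.le).2, sin_arccos, smul_smul,
      mul_inv_cancel₀ hs.ne']
    simp
  · rw [inner_smul_left, inner_sub_left, inner_smul_left, real_inner_self_eq_norm_sq, hq, ← hz]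
    simp only [conj_trivial]
    rw [inv_mul_eq_iff_eq_mul₀ hs.ne', mul_self_sqrt h1.le]
    ring

theorem Phi_int (a b : E) (α β : ℝ) :
    Phi a b β - Phi a b α = ∫ r in α..β, hfun (arc a b r) := by
  rw [intervalIntegral.integral_eq_sub_of_hasDerivAt (fun x _ => hasDerivAt_Phi a b x)
    ((continuous_hfun.comp (continuous_arc a b)).intervalIntegrable _ _)]

theorem Phi_half (a b : E) : Phi a b (π / 2) =
    2 / 3 * a 0 ^ 3 + a 0 ^ 2 * b 0 + a 0 * b 0 ^ 2 + 2 / 3 * b 0 ^ 3 +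
    (8 / 15 * a 2 ^ 5 + a 2 ^ 4 * b 2 + 4 / 3 * a 2 ^ 3 * b 2 ^ 2 + 4 / 3 * a 2 ^ 2 * b 2 ^ 3 +
      a 2 * b 2 ^ 4 + 8 / 15 * b 2 ^ 5) := by
  have h : ∀ x ∈ uIcc (0 : ℝ) (π / 2), HasDerivAt (fun x =>
      a 0 ^ 3 * (sin x - sin x ^ 3 / 3) - a 0 ^ 2 * b 0 * cos x ^ 3 + a 0 * b 0 ^ 2 * sin x ^ 3 +
        b 0 ^ 3 * (cos x ^ 3 / 3 - cos x) +
      (a 2 ^ 5 * (sin x - 2 * sin x ^ 3 / 3 + sin x ^ 5 / 5) - a 2 ^ 4 * b 2 * cos x ^ 5 +
        10 * a 2 ^ 3 * b 2 ^ 2 * (sin x ^ 3 / 3 - sin x ^ 5 / 5) +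
        10 * a 2 ^ 2 * b 2 ^ 3 * (cos x ^ 5 / 5 - cos x ^ 3 / 3) + a 2 * b 2 ^ 4 * sin x ^ 5 +
        b 2 ^ 5 * (2 * cos x ^ 3 / 3 - cos x ^ 5 / 5 - cos x))) (hfun (arc a b x)) x := by
    intro x _
    have hs := hasDerivAt_sin x
    have hc := hasDerivAt_cos x
    have := (((((hs.sub ((hs.pow 3).div_const 3)).const_mul (a 0 ^ 3)).sub
      ((hc.pow 3).const_mul (a 0 ^ 2 * b 0))).add ((hs.pow 3).const_mul (a 0 * b 0 ^ 2))).add
      ((((hc.pow 3).div_const 3).sub hc).const_mul (b 0 ^ 3))).add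
      ((((((((hs.sub (((hs.pow 3).const_mul 2).div_const 3)).add ((hs.pow 5).div_const 5)).const_mul
        (a 2 ^ 5)).sub ((hc.pow 5).const_mul (a 2 ^ 4 * b 2))).add
        ((((hs.pow 3).div_const 3).sub ((hs.pow 5).div_const 5)).const_mul
          (10 * a 2 ^ 3 * b 2 ^ 2))).add
        ((((hc.pow 5).div_const 5).sub ((hc.pow 3).div_const 3)).const_mul
          (10 * a 2 ^ 2 * b 2 ^ 3))).add ((hs.pow 5).const_mul (a 2 * b 2 ^ 4))).add
        ((((((hc.pow 3).const_mul 2).div_const 3).sub ((hc.pow 5).div_const 5)).sub hc).const_mul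
          (b 2 ^ 5)))
    refine this.congr_deriv ?_
    simp only [hfun, arc, PiLp.add_apply, PiLp.smul_apply, smul_eq_mul]
    have e := sin_sq_add_cos_sq x
    push_cast
    linear_combination (-(a 0 ^ 3 * cos x + b 0 ^ 3 * sin x +
      a 2 ^ 5 * cos x * (1 - sin x ^ 2 + cos x ^ 2) + 10 * a 2 ^ 3 * b 2 ^ 2 * sin x ^ 2 * cos x +
      10 * a 2 ^ 2 * b 2 ^ 3 * cos x ^ 2 * sin x +
      b 2 ^ 5 * sin x * (1 - cos x ^ 2 + sin x ^ 2))) * e
  unfold Phi
  rw [intervalIntegral.integral_eq_sub_of_hasDerivAt h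
    ((continuous_hfun.comp (continuous_arc a b)).intervalIntegrable _ _)]
  simp only [sin_pi_div_two, cos_pi_div_two, sin_zero, cos_zero]
  ring

end Pool.Agent.Lib.MP_da270e_gt
end

-- part Pool.Agent.Lib.MP_da270e_gt.Diam
section

/-!
The diameter of the perturbed sphere is smaller than `π` to first order.
-/

set_option autoImplicit false

namespace Pool.Agent.Lib.MP_da270e_gt

open Set Real

theorem inner_coord (a b : E) : inner ℝ a b = a 0 * b 0 + a 1 * b 1 + a 2 * b 2 := by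
  simp [PiLp.inner_apply, Fin.sum_univ_three]; ring

theorem frame {p : E} (hp : ‖p‖ = 1) (k : Fin 3) (hk : p k ^ 2 < 1) :
    ∃ f₁ f₂ : E, ‖f₁‖ = 1 ∧ ‖f₂‖ = 1 ∧ inner ℝ p f₁ = 0 ∧ inner ℝ p f₂ = 0 ∧ inner ℝ f₁ f₂ = 0 ∧
      f₁ k = √(1 - p k ^ 2) ∧ f₂ k = 0 := by
  have hn : ‖(EuclideanSpace.single k (1 : ℝ) : E)‖ = 1 := by simp
  have hin : ∀ v : E, inner ℝ v (EuclideanSpace.single k (1 : ℝ) : E) = v k := fun v => by
    simp [EuclideanSpace.inner_single_right]
  obtain ⟨b, hb, hpb, harc, hbk⟩ := exists_arc hp hn (by rwa [hin])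
  rw [hin, hin] at hbk
  have hp2 : inner ℝ p p = (1 : ℝ) := by rw [real_inner_self_eq_norm_sq, hp]; norm_num
  have hb2 : inner ℝ b b = (1 : ℝ) := by rw [real_inner_self_eq_norm_sq, hb]; norm_num
  let f : E := !₂[p 1 * b 2 - p 2 * b 1, p 2 * b 0 - p 0 * b 2, p 0 * b 1 - p 1 * b 0]
  have f0 : f 0 = p 1 * b 2 - p 2 * b 1 := rfl
  have f1 : f 1 = p 2 * b 0 - p 0 * b 2 := rfl
  have f2 : f 2 = p 0 * b 1 - p 1 * b 0 := rfl
  have hpf : inner ℝ p f = 0 := by rw [inner_coord, f0, f1, f2]; ring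
  have hbf : inner ℝ b f = 0 := by rw [inner_coord, f0, f1, f2]; ring
  refine ⟨b, f, hb, ?_, hpb, hpf, hbf, hbk, ?_⟩
  · refine (pow_eq_one_iff_of_nonneg (norm_nonneg _) two_ne_zero).1 ?_
    rw [← real_inner_self_eq_norm_sq, inner_coord, f0, f1, f2]
    rw [inner_coord] at hp2 hb2 hpb
    linear_combination (b 0 * b 0 + b 1 * b 1 + b 2 * b 2) * hp2 + hb2 -
      (p 0 * b 0 + p 1 * b 1 + p 2 * b 2) * hpb
  · rw [← hin f, ← harc, arc, inner_add_right, inner_smul_right, inner_smul_right,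
      real_inner_comm p f, hpf, real_inner_comm b f, hbf]
    simp

theorem bessel {p e : E} (hp : ‖p‖ = 1) (he : ‖e‖ = 1) (hpe : inner ℝ p e = 0) (k : Fin 3) :
    p k ^ 2 + e k ^ 2 ≤ 1 := by
  have h1 := norm_comb hp he hpe (p k) (e k)
  have h2 := abs_coord_le (p k • p + e k • e) k
  have h3 : (p k • p + e k • e) k = p k ^ 2 + e k ^ 2 := by
    simp only [PiLp.add_apply, PiLp.smul_apply, smul_eq_mul]; ring
  rw [h3] at h2
  have h4 := pow_le_pow_left₀ (abs_nonneg _) h2 2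
  rw [h1, sq_abs] at h4
  nlinarith [sq_nonneg (p k), sq_nonneg (e k)]

/-- The integral of `hfun` over the half great circle from `p` in the direction `e`. -/
noncomputable def Rf (p e : E) : ℝ :=
  2 * p 0 ^ 2 * e 0 + 4 / 3 * e 0 ^ 3 + 2 * p 2 ^ 4 * e 2 + 8 / 3 * p 2 ^ 2 * e 2 ^ 3 +
    16 / 15 * e 2 ^ 5

theorem Rf_eq (p e : E) : Phi p e (π / 2) + Phi e (-p) (π / 2) = Rf p e := by
  rw [Phi_half, Phi_half]
  simp only [Rf, PiLp.neg_apply]
  ring

theorem arccos_bound {z : ℝ} (hz : |z| ≤ 1 / 10) :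
    arccos z ≤ π / 2 - z + z ^ 2 ∧ |arccos z - π / 2| ≤ 2 * |z| := by
  have hpi := pi_lt_d2
  have key : ∀ w : ℝ, 0 ≤ w → w ≤ 1 / 10 → w ≤ arcsin w ∧ arcsin w ≤ 2 * w ∧
      arcsin w ≤ w + w ^ 2 := by
    intro w h0 h1
    have hs : sin (arcsin w) = w := sin_arcsin (by linarith) (by linarith)
    have a0 : 0 ≤ arcsin w := arcsin_nonneg.2 h0
    have a1 := arcsin_le_pi_div_two w
    have a2 := sin_le a0
    have a3 := mul_le_sin a0 a1
    rw [hs] at a2 a3
    have a4 : arcsin w ≤ 2 * w := by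
      have : 1 / 2 ≤ 2 / π := by
        rw [div_le_div_iff₀ (by norm_num) pi_pos]; linarith
      nlinarith
    refine ⟨a2, a4, ?_⟩
    rcases a0.eq_or_lt with h | h
    · rw [← h]; positivity
    · have a5 := sin_gt_sub_cube h
      rw [hs] at a5
      have a6 : arcsin w ^ 3 ≤ (2 * w) ^ 3 := pow_le_pow_left₀ a0 a4 3
      nlinarith
  rw [arccos]
  rcases le_total 0 z with h | h
  · rw [abs_of_nonneg h] at hz ⊢
    obtain ⟨k1, k2, -⟩ := key z h hz
    refine ⟨by nlinarith, abs_le.2 ⟨by linarith, by linarith⟩⟩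
  · rw [abs_of_nonpos h] at hz ⊢
    obtain ⟨k1, k2, k3⟩ := key (-z) (by linarith) hz
    rw [arcsin_neg] at k1 k2 k3
    refine ⟨by nlinarith, abs_le.2 ⟨by linarith, by linarith⟩⟩

theorem two_arc {ε : ℝ} (hε : 0 ≤ ε) {p q e : E} (hp : ‖p‖ = 1) (hq : ‖q‖ = 1) (he : ‖e‖ = 1)
    (hpe : inner ℝ p e = 0) (hD : ‖p + q‖ ≤ 1 / 10) :
    ∃ c, IsPath c p q ∧ wlen ε c ≤
      π - inner ℝ e (p + q) + ε * Rf p e + ‖p + q‖ ^ 2 + 44 * ε * ‖p + q‖ := by
  have hpi := pi_lt_d2
  have hep : inner ℝ e p = 0 := by rwa [real_inner_comm]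
  have hz : inner ℝ e (p + q) = inner ℝ e q := by rw [inner_add_right, hep, zero_add]
  have hzD : |inner ℝ e q| ≤ ‖p + q‖ := by
    have := abs_real_inner_le_norm e (p + q)
    rwa [he, one_mul, hz] at this
  rw [hz]
  set z := inner ℝ e q with hzdef
  set D := ‖p + q‖ with hDdef
  have hD0 : 0 ≤ D := norm_nonneg _
  have hz2 : z ^ 2 ≤ D ^ 2 := by
    rw [← sq_abs z]; exact pow_le_pow_left₀ (abs_nonneg _) hzD 2
  obtain ⟨b, hb, heb, harc, hbq⟩ := exists_arc he hq (by rw [← hzdef]; nlinarith)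
  rw [← hzdef] at harc hbq
  obtain ⟨p₁, w₁⟩ := arc_path ε hp he hpe (α := π / 2) (by positivity)
  obtain ⟨p₂, w₂⟩ := arc_path ε he hb heb (arccos_nonneg z)
  have e1 : arc p e (π / 2) = e := by simp [arc]
  rw [e1] at p₁
  rw [harc] at p₂
  obtain ⟨c, hc, hw⟩ := concat ε p₁ p₂
  refine ⟨c, hc, ?_⟩
  obtain ⟨k1, k2⟩ := arccos_bound (hzD.trans hD)
  have k3 := Phi_lip he hb heb (arccos z) (π / 2)
  have hbp : ‖b + p‖ ≤ 3 * D := by
    have t1 := one_sub_inner hb hq
    have t2 : 1 - z ^ 2 ≤ √(1 - z ^ 2) := by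
      apply le_sqrt_of_sq_le
      have : z ^ 2 ≤ 1 := by nlinarith
      nlinarith [sq_nonneg z]
    have t3 : ‖b - q‖ ^ 2 ≤ (2 * D) ^ 2 := by nlinarith
    have t4 : ‖b - q‖ ≤ 2 * D := (abs_le_of_sq_le_sq' t3 (by positivity)).2
    have t5 : b + p = (b - q) + (p + q) := by abel
    rw [t5]
    exact (norm_add_le _ _).trans (by linarith)
  have k4 : Phi e b (π / 2) - Phi e (-p) (π / 2) ≤ 40 * D := by
    have hcont : ∀ x y : E, Continuous fun r => hfun (arc x y r) := fun x y =>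
      continuous_hfun.comp (continuous_arc x y)
    unfold Phi
    rw [← intervalIntegral.integral_sub ((hcont _ _).intervalIntegrable _ _)
      ((hcont _ _).intervalIntegrable _ _)]
    have := intervalIntegral.norm_integral_le_of_norm_le_const (a := 0) (b := π / 2) (C := 24 * D)
      (f := fun r => hfun (arc e b r) - hfun (arc e (-p) r)) (fun r _ => by
        have l := hfun_lip (norm_arc he hb heb r).le
          (norm_arc he (b := -p) (by rwa [norm_neg]) (by rw [inner_neg_right, hep, neg_zero]) r).le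
        have e2 : arc e b r - arc e (-p) r = sin r • (b + p) := by unfold arc; module
        rw [e2, norm_smul, Real.norm_eq_abs] at l
        have := abs_sin_le_one r
        have := norm_nonneg (b + p)
        rw [Real.norm_eq_abs]
        nlinarith)
    rw [Real.norm_eq_abs, sub_zero, abs_of_pos (by positivity : 0 < π / 2)] at this
    have := (le_abs_self _).trans this
    nlinarith
  have k5 : Phi p e (π / 2) + Phi e b (arccos z) ≤ Rf p e + 44 * D := by
    have := (abs_le.1 k3).2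
    rw [← Rf_eq]
    linarith
  have k6 := mul_le_mul_of_nonneg_left k5 hε
  rw [hw, w₁, w₂]
  linarith

theorem good_direction {ε : ℝ} (hε : 0 ≤ ε) {p : E} (hp : ‖p‖ = 1) (v : E) :
    ∃ e : E, ‖e‖ = 1 ∧ inner ℝ p e = 0 ∧ -inner ℝ e v + ε * Rf p e ≤ -(ε / 30000) := by
  by_contra hcon
  have hall : ∀ e : E, ‖e‖ = 1 → inner ℝ p e = 0 → -(ε / 30000) < -inner ℝ e v + ε * Rf p e :=
    fun e h1 h2 => by
      by_contra h3
      exact hcon ⟨e, h1, h2, not_lt.1 h3⟩
  have hp2 : p 0 ^ 2 + p 1 ^ 2 + p 2 ^ 2 = 1 := by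
    have : inner ℝ p p = (1 : ℝ) := by rw [real_inner_self_eq_norm_sq, hp]; norm_num
    rw [inner_coord] at this
    linarith
  by_cases hcase : p 2 ^ 2 ≤ 15 / 16
  · obtain ⟨f₁, f₂, n₁, n₂, o₁, o₂, o₃, k₁, k₂⟩ := frame hp 2 (by linarith)
    have H : ∀ s t : ℝ, s ^ 2 + t ^ 2 = 1 → -(ε / 30000) <
        -(s * inner ℝ f₁ v + t * inner ℝ f₂ v) + ε * (2 * p 0 ^ 2 * (s * f₁ 0 + t * f₂ 0) +
          4 / 3 * (s * f₁ 0 + t * f₂ 0) ^ 3 + 2 * p 2 ^ 4 * (s * f₁ 2) +
          8 / 3 * p 2 ^ 2 * (s * f₁ 2) ^ 3 + 16 / 15 * (s * f₁ 2) ^ 5) := fun s t hst => by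
      have := hall (s • f₁ + t • f₂) (norm_comb_one n₁ n₂ o₃ hst)
        (by rw [inner_add_right, inner_smul_right, inner_smul_right, o₁, o₂]; simp)
      simpa [Rf, inner_add_left, inner_smul_left, k₂] using this
    have h1 := H (-1) 0 (by norm_num)
    have h2 := H (-3 / 5) (4 / 5) (by norm_num)
    have h3 := H (-3 / 5) (-4 / 5) (by norm_num)
    have h4 := H (4 / 5) (3 / 5) (by norm_num)
    have h5 := H (4 / 5) (-3 / 5) (by norm_num)
    have ha : 1 / 4 ≤ f₁ 2 := by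
      rw [k₁]; apply le_sqrt_of_sq_le; linarith
    have ha5 : (1 / 4 : ℝ) ^ 5 ≤ f₁ 2 ^ 5 := pow_le_pow_left₀ (by norm_num) ha 5
    have := mul_le_mul_of_nonneg_left ha5 hε
    nlinarith
  · have hc : 15 / 16 < p 2 ^ 2 := not_le.1 hcase
    have hp0 : p 0 ^ 2 ≤ 1 / 16 := by nlinarith [sq_nonneg (p 1)]
    obtain ⟨f₁, f₂, n₁, n₂, o₁, o₂, o₃, k₁, k₂⟩ := frame hp 0 (by linarith)
    have H : ∀ s t : ℝ, s ^ 2 + t ^ 2 = 1 → -(ε / 30000) <
        -(s * inner ℝ f₁ v + t * inner ℝ f₂ v) + ε * (2 * p 0 ^ 2 * (s * f₁ 0) +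
          4 / 3 * (s * f₁ 0) ^ 3 + 2 * p 2 ^ 4 * (s * f₁ 2 + t * f₂ 2) + 1 / 20) :=
      fun s t hst => by
      have hn := norm_comb_one n₁ n₂ o₃ hst
      have ho : inner ℝ p (s • f₁ + t • f₂) = 0 := by
        rw [inner_add_right, inner_smul_right, inner_smul_right, o₁, o₂]; simp
      have h1 := hall (s • f₁ + t • f₂) hn ho
      have h2 := bessel hp hn ho 2
      have h3 : |(s • f₁ + t • f₂) 2| ≤ 1 / 4 := abs_le_of_sq_le_sq' (by linarith) (by norm_num)
        |> abs_le.2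
      have h4 : (s • f₁ + t • f₂) 2 ^ 3 ≤ (1 / 4) ^ 3 :=
        (le_abs_self _).trans (by rw [abs_pow]; exact pow_le_pow_left₀ (abs_nonneg _) h3 3)
      have h5 : (s • f₁ + t • f₂) 2 ^ 5 ≤ (1 / 4) ^ 5 :=
        (le_abs_self _).trans (by rw [abs_pow]; exact pow_le_pow_left₀ (abs_nonneg _) h3 5)
      have h6 : p 2 ^ 2 ≤ 1 := by nlinarith [sq_nonneg (p 0), sq_nonneg (p 1)]
      have h7 : 8 / 3 * p 2 ^ 2 * (s • f₁ + t • f₂) 2 ^ 3 + 16 / 15 * (s • f₁ + t • f₂) 2 ^ 5 ≤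
          1 / 20 := by nlinarith [sq_nonneg (p 2)]
      have h8 := mul_le_mul_of_nonneg_left h7 hε
      have h9 : (s • f₁ + t • f₂) 0 = s * f₁ 0 := by simp [k₂]
      have h10 : (s • f₁ + t • f₂) 2 = s * f₁ 2 + t * f₂ 2 := by simp
      have h11 : inner ℝ (s • f₁ + t • f₂) v = s * inner ℝ f₁ v + t * inner ℝ f₂ v := by
        simp [inner_add_left, inner_smul_left]
      rw [Rf, h9, h11] at h1
      rw [← h10]
      linarith
    have h1 := H (-1) 0 (by norm_num)
    have h2 := H (3 / 5) (4 / 5) (by norm_num)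
    have h3 := H (3 / 5) (-4 / 5) (by norm_num)
    have ha : 9 / 10 ≤ f₁ 0 := by
      rw [k₁]; apply le_sqrt_of_sq_le; linarith
    have ha3 : (9 / 10 : ℝ) ^ 3 ≤ f₁ 0 ^ 3 := pow_le_pow_left₀ (by norm_num) ha 3
    have := mul_le_mul_of_nonneg_left ha3 hε
    nlinarith

theorem diam {ε : ℝ} (hε : 0 < ε) (hε' : ε ≤ 1 / 100) {p q : E} (hp : ‖p‖ = 1) (hq : ‖q‖ = 1)
    (hpq : p ≠ q) : ∃ c, IsPath c p q ∧ wlen ε c ≤ π - ε / 30000 + 500 * ε ^ 2 := by
  have hpi := pi_lt_d2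
  by_cases hD : ‖p + q‖ ≤ 8 * ε
  · obtain ⟨e, he, hpe, hle⟩ := good_direction hε.le hp (p + q)
    obtain ⟨c, hc, hw⟩ := two_arc hε.le hp hq he hpe (by linarith)
    refine ⟨c, hc, hw.trans ?_⟩
    have := norm_nonneg (p + q)
    nlinarith
  · have hD' : 8 * ε < ‖p + q‖ := not_le.1 hD
    have e1 : ‖p + q‖ ^ 2 = 2 + 2 * inner ℝ p q := by
      rw [norm_add_sq_real, hp, hq]; ring
    have e2 := one_sub_inner hp hq
    have e3 : 0 < ‖p - q‖ := norm_pos_iff.2 (sub_ne_zero.2 hpq)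
    have e4 : inner ℝ p q < 1 := by nlinarith
    have e5 : -1 < inner ℝ p q := by nlinarith
    obtain ⟨b, hb, hpb, harc, -⟩ := exists_arc hp hq (by nlinarith)
    obtain ⟨p₁, w₁⟩ := arc_path ε hp hb hpb (arccos_nonneg (inner ℝ p q))
    rw [harc] at p₁
    refine ⟨_, p₁, ?_⟩
    rw [w₁]
    set α := arccos (inner ℝ p q) with hα
    have a0 : 0 ≤ α := arccos_nonneg _
    have a1 : α ≤ π := arccos_le_pi _
    have a2 : cos α = inner ℝ p q := cos_arccos e5.le e4.le
    have a3 := one_sub_sq_div_two_le_cos (x := π - α)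
    rw [cos_pi_sub, a2] at a3
    have a4 : ‖p + q‖ ≤ π - α := (abs_le_of_sq_le_sq' (by linarith) (by linarith)).2
    have a5 := Phi_lip hp hb hpb α 0
    have a6 : Phi p b 0 = 0 := by simp [Phi]
    rw [a6, sub_zero, sub_zero, abs_of_nonneg a0] at a5
    have a7 : Phi p b α ≤ 7 := by linarith [le_abs_self (Phi p b α)]
    nlinarith

end Pool.Agent.Lib.MP_da270e_gt
end
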