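import Mathlib
import Pool.Agent.Lib.MP_da270e_gt.Diam
import Pool.Agent.Lib.MP_da270e_gt.Stmt

-- part Pool.Agent.Lib.MP_da270e_gt.Loop
section

/-!
A loop made of two almost great circle arcs leaving in opposite directions is long.
-/

set_option autoImplicit false

namespace Pool.Agent.Lib.MP_da270e_gt

open Set Real

theorem NearGeo.arcLen_pos {κ : ℝ} {c d P F : ℝ → E} (h : NearGeo κ c d P F) :
    0 < arcLen d 1 := by
  have := strictMonoOn_of_deriv_pos (convex_Icc (0 : ℝ) 1)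
    (f := arcLen d) (fun x _ => (hasDerivAt_arcLen h.hd x).continuousAt.continuousWithinAt)
    (fun x hx => by
      rw [(hasDerivAt_arcLen h.hd x).deriv]
      exact norm_pos_iff.2 (h.ne x (interior_subset hx)))
    ⟨le_rfl, zero_le_one⟩ ⟨zero_le_one, le_rfl⟩ zero_lt_one
  simpa [arcLen_zero] using this

theorem small_angle {γ κ : ℝ} (hκ0 : 0 ≤ κ) (hκ : κ ≤ 1 / 1000) (h1 : -1 ≤ γ)
    (h2 : γ ≤ 2 * π - 1) (hc : 1 - 578 * κ ^ 2 ≤ cos γ) : |γ| ≤ 54 * κ := by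
  have hpi := pi_gt_three
  have hpi' := pi_lt_d2
  have key : ∀ x : ℝ, |x| ≤ π → 1 - 578 * κ ^ 2 ≤ cos x → |x| ≤ 54 * κ := by
    intro x hx hcx
    have := cos_le_one_sub_mul_cos_sq hx
    have h3 : 2 / π ^ 2 * x ^ 2 ≤ 578 * κ ^ 2 := by linarith
    have h4 : 1 / 5 ≤ 2 / π ^ 2 := by
      rw [div_le_div_iff₀ (by norm_num) (by positivity)]; nlinarith
    have h5 : x ^ 2 ≤ (54 * κ) ^ 2 := by nlinarith [sq_nonneg x, sq_nonneg κ]
    exact abs_le_of_sq_le_sq' h5 (by positivity) |> abs_le.2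
  by_cases hγ : γ ≤ π
  · exact key γ (abs_le.2 ⟨by linarith, hγ⟩) hc
  · exfalso
    have := key (2 * π - γ) (abs_le.2 ⟨by linarith, by linarith⟩) (by rwa [cos_two_pi_sub])
    have := (abs_le.1 this).2
    linarith

theorem gamma_le {γ X K : ℝ} (hK : 0 ≤ K) (h1 : γ ≤ 1) (hX : X ≤ -(1 / 2))
    (hsin : -X * sin γ ≤ 1200 * K) : γ ≤ 5000 * K := by
  by_cases hg : γ ≤ 0
  · linarith
  · have hg' : 0 < γ := not_le.1 hg
    have s1 := sin_gt_sub_cube hg'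
    have s2 : γ ^ 3 ≤ γ := by
      have : γ ^ 2 ≤ 1 := by nlinarith
      nlinarith
    have s3 : 0 ≤ sin γ := by linarith
    nlinarith

theorem comb_le {X Y c₁ s₁ c₂ s₂ K : ℝ} (hK : 0 ≤ K) (a₁ : Y * c₁ - X * s₁ ≤ 600 * K)
    (a₂ : -Y * c₂ - X * s₂ ≤ 600 * K) (h₁ : c₁ ≤ 0) (h₂ : c₂ ≤ 0) (n₁ : -1 ≤ c₁) (n₂ : -1 ≤ c₂) :
    -X * -(s₁ * c₂ + c₁ * s₂) ≤ 1200 * K := by
  have m₁ := mul_le_mul_of_nonneg_left a₁ (by linarith : 0 ≤ -c₂)
  have m₂ := mul_le_mul_of_nonneg_left a₂ (by linarith : 0 ≤ -c₁)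
  nlinarith

theorem loop {κ ε : ℝ} {c₁ d₁ P₁ F₁ c₂ d₂ P₂ F₂ : ℝ → E} (h₁ : NearGeo κ c₁ d₁ P₁ F₁)
    (h₂ : NearGeo κ c₂ d₂ P₂ F₂) (hκ0 : 0 ≤ κ) (hκ : κ ≤ 1 / 1000) (hε : 0 ≤ ε)
    (h0 : c₂ 0 = c₁ 0) (hend : c₂ 1 = c₁ 1) {u : E} (hu : ‖u‖ = 1)
    (hd₁ : d₁ 0 = ‖d₁ 0‖ • u) (hd₂ : d₂ 0 = ‖d₂ 0‖ • (-u))
    (hs₁ : arcLen d₁ 1 ≤ π + 2 * κ) (hs₂ : arcLen d₂ 1 ≤ π + 2 * κ) :
    2 * π - 5000 * κ ^ 2 - 1200 * ε * κ ≤
      (∫ t in (0 : ℝ)..1, (1 + ε * hfun (c₁ t)) * ‖d₁ t‖) +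
        ∫ t in (0 : ℝ)..1, (1 + ε * hfun (c₂ t)) * ‖d₂ t‖ := by
  have hpi := pi_gt_three
  have hpi' := pi_lt_d2
  have h01 : (0 : ℝ) ∈ Icc (0 : ℝ) 1 := ⟨le_rfl, zero_le_one⟩
  have h11 : (1 : ℝ) ∈ Icc (0 : ℝ) 1 := ⟨zero_le_one, le_rfl⟩
  have hu' : ‖-u‖ = 1 := by rwa [norm_neg]
  have q₁ : arcLen d₁ 1 ≤ 4 := by linarith
  have q₂ : arcLen d₂ 1 ≤ 4 := by linarith
  obtain ⟨a₁, b₁, e₁⟩ := h₁.est hκ0 hε hu hd₁ q₁
  obtain ⟨a₂, b₂, e₂⟩ := h₂.est hκ0 hε hu' hd₂ q₂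
  have k₁ := (h₁.close hκ0 hd₁ q₁ 1 h11).1
  have k₂ := (h₂.close hκ0 hd₂ q₂ 1 h11).1
  have p₁ := h₁.arcLen_pos
  have p₂ := h₂.arcLen_pos
  rw [h0, hend] at a₂ k₂
  rw [hend] at b₂
  rw [h0] at e₂
  rw [inner_neg_right] at a₂ b₂
  have hy : ‖c₁ 0‖ = 1 := h₁.unit 0 h01
  have hx : ‖c₁ 1‖ = 1 := h₁.unit 1 h11
  have hyu : inner ℝ (c₁ 0) u = 0 := by
    have := h₁.tang 0 h01
    rw [hd₁, inner_smul_right] at this
    exact (mul_eq_zero.1 this).resolve_left (norm_pos_iff.2 (h₁.ne 0 h01)).ne'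
  generalize arcLen d₁ 1 = s₁ at *
  generalize arcLen d₂ 1 = s₂ at *
  generalize c₁ 0 = y at *
  generalize c₁ 1 = x at *
  have hbig : 1 < s₁ + s₂ := by
    by_contra hc
    have t₁ := b₁ (by linarith)
    have t₂ := b₂ (by linarith)
    nlinarith
  have hdiff : ‖arc y u s₁ - arc y (-u) s₂‖ ≤ 34 * κ := by
    have e : arc y u s₁ - arc y (-u) s₂ = (x - arc y (-u) s₂) - (x - arc y u s₁) := by abel
    rw [e]
    exact (norm_sub_le _ _).trans (by linarith)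
  have hcos : 1 - 578 * κ ^ 2 ≤ cos (2 * π - (s₁ + s₂)) := by
    have e : arc y u s₁ - arc y (-u) s₂ = (cos s₁ - cos s₂) • y + (sin s₁ + sin s₂) • u := by
      unfold arc; module
    have e2 := norm_comb hy hu hyu (cos s₁ - cos s₂) (sin s₁ + sin s₂)
    rw [← e] at e2
    have e3 := pow_le_pow_left₀ (norm_nonneg _) hdiff 2
    rw [cos_two_pi_sub, cos_add]
    nlinarith [cos_sq_add_sin_sq s₁, cos_sq_add_sin_sq s₂]
  have hγ := small_angle hκ0 hκ (by linarith) (by linarith) hcos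
  set γ := 2 * π - (s₁ + s₂) with hγdef
  have hγ' := abs_le.1 hγ
  have cneg : ∀ s : ℝ, π - 1 / 10 ≤ s → s ≤ π + 1 / 10 → cos s ≤ -(9 / 10) := by
    intro s ha hb
    have := one_sub_sq_div_two_le_cos (x := π - s)
    rw [cos_pi_sub] at this
    nlinarith
  have c₁' := cneg s₁ (by linarith) (by linarith)
  have c₂' := cneg s₂ (by linarith) (by linarith)
  have hX : inner ℝ x y ≤ -(1 / 2) := by
    have e3 := abs_real_inner_le_norm (x - arc y u s₁) y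
    rw [hy, mul_one, inner_sub_left, arc, inner_add_left, inner_smul_left, inner_smul_left,
      real_inner_self_eq_norm_sq, hy, real_inner_comm, real_inner_comm y u, hyu] at e3
    simp only [conj_trivial, mul_zero, one_pow, mul_one, add_zero] at e3
    have := (abs_le.1 (e3.trans k₁)).2
    rw [real_inner_comm]
    linarith
  have hsin : -(inner ℝ x y) * sin γ ≤ 1200 * κ ^ 2 := by
    have e : sin γ = -(sin s₁ * cos s₂ + cos s₁ * sin s₂) := by
      rw [hγdef, sin_two_pi_sub, sin_add]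
    rw [e]
    exact comb_le (sq_nonneg κ) a₁ a₂ (by linarith) (by linarith) (neg_one_le_cos s₁)
      (neg_one_le_cos s₂)
  have hγ2 : γ ≤ 5000 * κ ^ 2 := gamma_le (sq_nonneg κ) (by linarith) hX hsin
  have f1 := Phi_neg y u s₂
  have f2 := Phi_lip hy hu hyu s₁ (2 * π - s₂)
  have f3 : |s₁ - (2 * π - s₂)| = |γ| := by
    rw [← abs_neg]; congr 1; rw [hγdef]; ring
  rw [f3] at f2
  have f4 : -(108 * κ) ≤ Phi y u s₁ + Phi y (-u) s₂ := by
    have := (abs_le.1 f2).1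
    linarith
  have f5 := mul_le_mul_of_nonneg_left f4 hε
  have f6 := mul_nonneg hε hκ0
  linarith

end Pool.Agent.Lib.MP_da270e_gt
end

-- part Pool.Agent.Lib.MP_da270e_gt.Main
section

/-!
The metric `(1 + ε h)² · round` and its neighbours have no opposite segments.
-/

set_option autoImplicit false
set_option maxSynthPendingDepth 3

namespace Pool.Agent.Lib.MP_da270e_gt

open Set Real
open scoped ContDiff

/-- The inner product as a bilinear form. -/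
noncomputable def ip : E →L[ℝ] E →L[ℝ] ℝ := innerSL ℝ

theorem ip_apply (v w : E) : ip v w = inner ℝ v w := rfl

/-- The perturbed metric. -/
noncomputable def g0 (ε : ℝ) (p : E) : E →L[ℝ] E →L[ℝ] ℝ := (1 + ε * hfun p) ^ 2 • ip

theorem g0_apply (ε : ℝ) (p v w : E) : g0 ε p v w = (1 + ε * hfun p) ^ 2 * inner ℝ v w := rfl

theorem contDiff_hfun : ContDiff ℝ ∞ hfun := by
  unfold hfun; fun_prop

theorem lam_bound {ε : ℝ} (hε : 0 ≤ ε) {p : E} (hp : ‖p‖ = 1) :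
    1 - 2 * ε ≤ 1 + ε * hfun p ∧ 1 + ε * hfun p ≤ 1 + 2 * ε := by
  obtain ⟨h1, h2⟩ := abs_le.1 (abs_hfun_le hp.le)
  constructor <;> nlinarith

theorem isMetric_g0 {ε : ℝ} (hε : 0 ≤ ε) (hε' : ε ≤ 1 / 100) : IsMetric (g0 ε) := by
  refine ⟨?_, fun p v w => by rw [g0_apply, g0_apply, real_inner_comm], fun p v hp _ hv => ?_⟩
  · exact ((contDiff_const.add (contDiff_const.mul contDiff_hfun)).pow 2).smul contDiff_const
  · rw [g0_apply]
    have := (lam_bound hε hp).1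
    have h2 : 0 < 1 + ε * hfun p := by linarith
    have := real_inner_self_pos.2 hv
    positivity

theorem abs_fderiv_hfun_le {p : E} (hp : ‖p‖ = 1) (u : E) : |fderiv ℝ hfun p u| ≤ 8 * ‖u‖ := by
  have h1 : HasFDerivAt hfun (fderiv ℝ hfun p) (p + (0 : ℝ) • u) := by
    rw [zero_smul, add_zero]
    exact (contDiff_hfun.differentiable (by simp) p).hasFDerivAt
  have h2 : HasDerivAt (fun τ : ℝ => p + τ • u) u 0 :=
    (((hasDerivAt_id (0 : ℝ)).smul_const u).const_add p).congr_deriv (by simp)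
  have h3 := h1.comp_hasDerivAt (0 : ℝ) h2
  have k : ∀ i : Fin 3, HasDerivAt (fun τ : ℝ => p i + τ * u i) (u i) 0 := fun i =>
    (((hasDerivAt_id (0 : ℝ)).mul_const (u i)).const_add (p i)).congr_deriv (by simp)
  have h4 : HasDerivAt (hfun ∘ fun τ : ℝ => p + τ • u)
      (3 * p 0 ^ 2 * u 0 + 5 * p 2 ^ 4 * u 2) 0 :=
    (((k 0).pow 3).add ((k 2).pow 5)).congr_deriv (by simp)
  rw [h3.unique h4]
  have a0 := (abs_coord_le p 0).trans hp.le
  have a2 := (abs_coord_le p 2).trans hp.le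
  have b0 := abs_coord_le u 0
  have b2 := abs_coord_le u 2
  have c0 : |p 0| ^ 2 ≤ 1 := pow_le_one₀ (abs_nonneg _) a0
  have c2 : |p 2| ^ 4 ≤ 1 := pow_le_one₀ (abs_nonneg _) a2
  calc _ ≤ |3 * p 0 ^ 2 * u 0| + |5 * p 2 ^ 4 * u 2| := abs_add_le _ _
    _ = 3 * |p 0| ^ 2 * |u 0| + 5 * |p 2| ^ 4 * |u 2| := by
        simp only [abs_mul, abs_pow]; norm_num
    _ ≤ 3 * 1 * ‖u‖ + 5 * 1 * ‖u‖ := by gcongr
    _ = 8 * ‖u‖ := by ring

theorem cov_g0 (ε : ℝ) {p u v w : E} (hv : inner ℝ p v = 0) (hw : inner ℝ p w = 0) :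
    cov (g0 ε) p u v w = 2 * (1 + ε * hfun p) * ε * fderiv ℝ hfun p u * inner ℝ v w := by
  have h1 : HasFDerivAt hfun (fderiv ℝ hfun p) p :=
    (contDiff_hfun.differentiable (by simp) p).hasFDerivAt
  have h2 := (((h1.const_mul ε).const_add 1).pow 2).smul_const ip
  have h3 : fderiv ℝ (g0 ε) p = _ := h2.fderiv
  rw [cov, h3, g0_apply, g0_apply, hw, real_inner_comm p v, hv]
  simp only [ContinuousLinearMap.smulRight_apply, smul_apply, smul_eq_mul, ip_apply, nsmul_eq_mul]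
  norm_num
  left
  ring

theorem no_opposite {ε : ℝ} (hε : 0 < ε) (hε' : ε ≤ 1 / 10 ^ 13) {g : E → E →L[ℝ] E →L[ℝ] ℝ}
    (hg : IsMetric g) (hcl : C1Close (ε ^ 2) g (g0 ε)) : ¬ HasOppositeSegments g := by
  rintro ⟨x, y, c₁, c₂, hxy, s₁, s₂, a, ha, hop⟩
  have hpi := pi_gt_three
  have hpi' := pi_lt_d2
  have hε2 : ε ^ 2 ≤ ε / 10 ^ 13 := by nlinarith
  have hε3 : 0 < ε ^ 2 := by positivity
  have g0' : ∀ p v w : E, ‖p‖ = 1 → inner ℝ p v = 0 → inner ℝ p w = 0 →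
      |g p v w - inner ℝ v w| ≤ 21 * ε * ‖v‖ * ‖w‖ := fun p v w hp hv hw => by
    have k1 := (hcl p v v w hp hv hv hw).1
    obtain ⟨l1, l2⟩ := lam_bound hε.le hp
    have k2 : |(1 + ε * hfun p) ^ 2 - 1| ≤ 5 * ε := abs_le.2 ⟨by nlinarith, by nlinarith⟩
    have k3 := abs_real_inner_le_norm v w
    rw [g0_apply] at k1
    have n : 0 ≤ ‖v‖ * ‖w‖ := by positivity
    calc |g p v w - inner ℝ v w| = |(g p v w - (1 + ε * hfun p) ^ 2 * inner ℝ v w) +
          ((1 + ε * hfun p) ^ 2 - 1) * inner ℝ v w| := by congr 1; ring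
      _ ≤ ε ^ 2 * ‖v‖ * ‖w‖ + 5 * ε * (‖v‖ * ‖w‖) := by
          refine (abs_add_le _ _).trans (add_le_add k1 ?_)
          rw [abs_mul]; gcongr
      _ ≤ 21 * ε * ‖v‖ * ‖w‖ := by nlinarith
  have g1' : ∀ p u v w : E, ‖p‖ = 1 → inner ℝ p u = 0 → inner ℝ p v = 0 → inner ℝ p w = 0 →
      |cov g p u v w| ≤ 21 * ε * ‖u‖ * ‖v‖ * ‖w‖ := fun p u v w hp hu hv hw => by
    have k1 := (hcl p u v w hp hu hv hw).2
    obtain ⟨l1, l2⟩ := lam_bound hε.le hp
    have k2 := abs_fderiv_hfun_le hp u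
    have k3 := abs_real_inner_le_norm v w
    have l3 : |1 + ε * hfun p| ≤ 5 / 4 := abs_le.2 ⟨by linarith, by linarith⟩
    have n : 0 ≤ ‖u‖ * ‖v‖ * ‖w‖ := by positivity
    have k4 : |cov (g0 ε) p u v w| ≤ 2 * (5 / 4) * ε * (8 * ‖u‖) * (‖v‖ * ‖w‖) := by
      rw [cov_g0 ε hv hw]
      simp only [abs_mul, abs_two, abs_of_pos hε]
      gcongr
    calc |cov g p u v w| = |(cov g p u v w - cov (g0 ε) p u v w) + cov (g0 ε) p u v w| := by
          congr 1; ring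
      _ ≤ ε ^ 2 * ‖u‖ * ‖v‖ * ‖w‖ + 2 * (5 / 4) * ε * (8 * ‖u‖) * (‖v‖ * ‖w‖) :=
          (abs_add_le _ _).trans (add_le_add k1 k4)
      _ ≤ 21 * ε * ‖u‖ * ‖v‖ * ‖w‖ := by nlinarith
  have hgc : Continuous g := hg.1.continuous
  have cmp : ∀ {c : ℝ → E} {p q : E}, IsPath c p q →
      (1 - 2 * ε ^ 2) * wlen ε c ≤ len g c ∧ len g c ≤ (1 + 2 * ε ^ 2) * wlen ε c ∧
        (1 - 21 * ε) * arcLen (deriv c) 1 ≤ len g c := fun {c p q} hp => by
    have hcc : Continuous c := hp.1.continuous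
    have hdc : Continuous (deriv c) := hp.1.continuous_deriv le_rfl
    have hh := continuous_hfun
    have key : ∀ t ∈ Icc (0 : ℝ) 1,
        (1 - 2 * ε ^ 2) * ((1 + ε * hfun (c t)) * ‖deriv c t‖) ≤
          √(g (c t) (deriv c t) (deriv c t)) ∧ √(g (c t) (deriv c t) (deriv c t)) ≤
          (1 + 2 * ε ^ 2) * ((1 + ε * hfun (c t)) * ‖deriv c t‖) := fun t ht => by
      have k1 := (hcl _ _ _ _ (hp.2.1 t ht) (hp.tang ht) (hp.tang ht) (hp.tang ht)).1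
      rw [g0_apply, real_inner_self_eq_norm_sq] at k1
      obtain ⟨l1, l2⟩ := lam_bound hε.le (hp.2.1 t ht)
      set L := 1 + ε * hfun (c t)
      set w := ‖deriv c t‖
      have w0 : 0 ≤ w := norm_nonneg _
      have l0 : 9 / 10 ≤ L := by linarith
      have l3 : w ≤ 10 / 9 * (L * w) := by nlinarith
      have l4 : w * w ≤ 2 * (L * w) * (L * w) := by nlinarith
      have l5 : |g (c t) (deriv c t) (deriv c t) - (L * w) ^ 2| ≤
          2 * ε ^ 2 * (L * w) * (L * w) := by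
        rw [mul_pow]
        refine k1.trans ?_
        nlinarith
      exact speed_bound (by positivity) (by linarith) (by positivity) l5
    unfold wlen len arcLen
    rw [← intervalIntegral.integral_const_mul, ← intervalIntegral.integral_const_mul,
      ← intervalIntegral.integral_const_mul]
    refine ⟨intervalIntegral.integral_mono_on zero_le_one ?_ ?_ fun t ht => (key t ht).1,
      intervalIntegral.integral_mono_on zero_le_one ?_ ?_ fun t ht => (key t ht).2,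
      intervalIntegral.integral_mono_on zero_le_one ?_ ?_ fun t ht => ?_⟩
    any_goals exact Continuous.intervalIntegrable (by fun_prop) _ _
    refine (speed_bound (by positivity) (by linarith) (norm_nonneg _) ?_).1
    rw [← real_inner_self_eq_norm_sq]
    exact g0' _ _ _ (hp.2.1 t ht) (hp.tang ht) (hp.tang ht)
  have h01 : (0 : ℝ) ∈ Icc (0 : ℝ) 1 := ⟨le_rfl, zero_le_one⟩
  have h11 : (1 : ℝ) ∈ Icc (0 : ℝ) 1 := ⟨zero_le_one, le_rfl⟩
  have hy : ‖y‖ = 1 := s₁.1.2.2.1 ▸ s₁.1.2.1 0 h01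
  have hx : ‖x‖ = 1 := s₁.1.2.2.2 ▸ s₁.1.2.1 1 h11
  obtain ⟨c, hc, hw⟩ := diam hε (by linarith) hy hx hxy.symm
  have hrho : rho g y x ≤ π - ε / 30000 + 510 * ε ^ 2 := by
    have r1 : rho g y x ≤ len g c := csInf_le ⟨0, by
      rintro L ⟨c, -, rfl⟩
      exact intervalIntegral.integral_nonneg zero_le_one fun t _ => sqrt_nonneg _⟩ ⟨c, hc, rfl⟩
    have r2 := (cmp hc).2.1
    have r3 : wlen ε c ≤ 5 := by linarith
    nlinarith
  obtain ⟨P₁, F₁, n₁⟩ := s₁.nearGeo hg (η := 21 * ε) (by positivity) (by linarith) g0' g1'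
  obtain ⟨P₂, F₂, n₂⟩ := s₂.nearGeo hg (η := 21 * ε) (by positivity) (by linarith) g0' g1'
  have arc_le : ∀ {c : ℝ → E}, IsSegment g c y x → arcLen (deriv c) 1 ≤ π + 2 * (3 * (21 * ε)) :=
    fun {c} s => by
    have q1 := (cmp s.1).2.2
    rw [s.2.2] at q1
    have q2 : (1 - 21 * ε) * arcLen (deriv c) 1 ≤ π := by linarith
    have q3 : arcLen (deriv c) 1 ≤ 4 := by
      by_contra h
      nlinarith
    nlinarith
  have hd0 : ‖deriv c₁ 0‖ ≠ 0 := norm_ne_zero_iff.2 (s₁.2.1 0 h01)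
  have hl := loop n₁ n₂ (by positivity) (by linarith) hε.le (by rw [s₁.1.2.2.1, s₂.1.2.2.1])
    (by rw [s₁.1.2.2.2, s₂.1.2.2.2]) (u := ‖deriv c₁ 0‖⁻¹ • deriv c₁ 0)
    (by rw [norm_smul, norm_inv, norm_norm, inv_mul_cancel₀ hd0])
    (by rw [smul_smul, mul_inv_cancel₀ hd0, one_smul])
    (by
      rw [hop, norm_neg, norm_smul, Real.norm_eq_abs, abs_of_pos ha, smul_neg, smul_smul,
        mul_inv_cancel_right₀ hd0]) (arc_le s₁) (arc_le s₂)
  change _ ≤ wlen ε c₁ + wlen ε c₂ at hl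
  have w₁ := (cmp s₁.1).1
  have w₂ := (cmp s₂.1).1
  rw [s₁.2.2] at w₁
  rw [s₂.2.2] at w₂
  have z1 : wlen ε c₁ + wlen ε c₂ ≤ 10 := by
    by_contra h
    nlinarith
  have z2 : wlen ε c₁ + wlen ε c₂ ≤ 2 * π - ε / 15000 + 1040 * ε ^ 2 := by nlinarith
  nlinarith

end Pool.Agent.Lib.MP_da270e_gt
end

-- part Pool.Agent.Lib.MP_da270e_gt.Bridge
section

/-!
From matrix fields to fields of bilinear forms.
-/

set_option autoImplicit false
set_option maxSynthPendingDepth 3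

namespace Pool.Agent.Lib.MP_da270e_gt

open Set Real
open scoped ContDiff

/-- The bilinear form `(v, w) ↦ v i * w j`. -/
noncomputable def eb (i j : Fin 3) : E →L[ℝ] E →L[ℝ] ℝ :=
  (EuclideanSpace.proj i : E →L[ℝ] ℝ).smulRight (EuclideanSpace.proj j : E →L[ℝ] ℝ)

/-- The field of bilinear forms of a matrix field. -/
noncomputable def toBil (g : E → Fin 3 → Fin 3 → ℝ) (p : E) : E →L[ℝ] E →L[ℝ] ℝ :=
  ∑ i, ∑ j, g p i j • eb i j

theorem toBil_apply (g : E → Fin 3 → Fin 3 → ℝ) (p v w : E) :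
    toBil g p v w = Stmt.form g p v w := by
  simp [toBil, eb, Stmt.form, mul_assoc]

theorem isMetric_toBil {g : E → Fin 3 → Fin 3 → ℝ} (hg : Stmt.IsMetric g) :
    IsMetric (toBil g) := by
  refine ⟨?_, fun p v w => ?_, fun p v hp hv h0 => ?_⟩
  · exact ContDiff.sum fun i _ => ContDiff.sum fun j _ => (hg.1 i j).smul contDiff_const
  · rw [toBil_apply, toBil_apply, Stmt.form, Stmt.form, Finset.sum_comm]
    refine Finset.sum_congr rfl fun i _ => Finset.sum_congr rfl fun j _ => ?_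
    rw [hg.2.1 p j i]; ring
  · rw [toBil_apply]; exact hg.2.2 p v hp hv h0

theorem deriv_line {G : E → E →L[ℝ] E →L[ℝ] ℝ} (hG : IsMetric G) (p u v w : E) :
    deriv (fun t : ℝ => G (p + t • u) v w) 0 = fderiv ℝ G p u v w := by
  have h1 : HasFDerivAt G (fderiv ℝ G p) (p + (0 : ℝ) • u) := by
    rw [zero_smul, add_zero]
    exact (hG.1.differentiable (by simp) p).hasFDerivAt
  have h2 : HasDerivAt (fun τ : ℝ => p + τ • u) u 0 :=
    (((hasDerivAt_id (0 : ℝ)).smul_const u).const_add p).congr_deriv (by simp)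
  have h3 : HasDerivAt (fun τ : ℝ => G (p + τ • u)) (fderiv ℝ G p u) 0 :=
    HasFDerivAt.comp_hasDerivAt (F := E) (E := E →L[ℝ] E →L[ℝ] ℝ) (l := G) (0 : ℝ) h1 h2
  exact (((h3.clm_apply (hasDerivAt_const _ v)).clm_apply (hasDerivAt_const _ w)).congr_deriv
    (by simp)).deriv

theorem cov_toBil {g : E → Fin 3 → Fin 3 → ℝ} (hg : IsMetric (toBil g)) (p u v w : E) :
    cov (toBil g) p u v w = Stmt.cov g p u v w := by
  simp only [cov, Stmt.cov, ← deriv_line hg, toBil_apply]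

theorem len_toBil (g : E → Fin 3 → Fin 3 → ℝ) (c : ℝ → E) : len (toBil g) c = Stmt.len g c := by
  simp only [len, Stmt.len, toBil_apply]

theorem rho_toBil (g : E → Fin 3 → Fin 3 → ℝ) (a b : E) :
    rho (toBil g) a b = Stmt.rho g a b := by
  simp only [rho, Stmt.rho, len_toBil]; rfl

theorem seg_toBil {g : E → Fin 3 → Fin 3 → ℝ} {c : ℝ → E} {a b : E}
    (h : Stmt.IsSegment g c a b) : IsSegment (toBil g) c a b :=
  ⟨h.1, h.2.1, by rw [len_toBil, rho_toBil]; exact h.2.2⟩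

/-- The matrix field of the perturbed metric. -/
noncomputable def m0 (ε : ℝ) (p : E) (i j : Fin 3) : ℝ :=
  if i = j then (1 + ε * hfun p) ^ 2 else 0

theorem toBil_m0 (ε : ℝ) : toBil (m0 ε) = g0 ε := by
  ext1 p
  refine ContinuousLinearMap.ext fun v => ContinuousLinearMap.ext fun w => ?_
  rw [toBil_apply, g0_apply, inner_coord]
  simp [Stmt.form, m0, Fin.sum_univ_three]
  ring

theorem isMetric_m0 {ε : ℝ} (hε : 0 ≤ ε) (hε' : ε ≤ 1 / 100) : Stmt.IsMetric (m0 ε) := by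
  refine ⟨fun i j => ?_, fun p i j => by simp only [m0, eq_comm], fun p v hp hv h0 => ?_⟩
  · unfold m0
    split_ifs
    · exact (contDiff_const.add (contDiff_const.mul contDiff_hfun)).pow 2
    · exact contDiff_const
  · rw [← toBil_apply, toBil_m0]
    exact (isMetric_g0 hε hε').2.2 p v hp hv h0

theorem no_opposite' {ε : ℝ} (hε : 0 < ε) (hε' : ε ≤ 1 / 10 ^ 13) {g : E → Fin 3 → Fin 3 → ℝ}
    (hg : Stmt.IsMetric g) (hcl : Stmt.C1Close (ε ^ 2) g (m0 ε)) :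
    ¬ Stmt.HasOppositeSegments g := by
  rintro ⟨x, y, c₁, c₂, hxy, s₁, s₂, h⟩
  have hG := isMetric_toBil hg
  have hm := isMetric_toBil (isMetric_m0 hε.le (by linarith))
  refine no_opposite hε hε' hG (fun p u v w hp hu hv hw => ?_)
    ⟨x, y, c₁, c₂, hxy, seg_toBil s₁, seg_toBil s₂, h⟩
  rw [← toBil_m0, toBil_apply, toBil_apply, cov_toBil hG, cov_toBil hm]
  exact hcl p u v w hp hu hv hw

end Pool.Agent.Lib.MP_da270e_gt
end
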